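import Mathlib

/-! Binary recurrences `x (n + 2) = A x (n + 1) + B x n` of natural numbers: divisibility properties. -/

set_option autoImplicit false

namespace Pool.Agent.K4H3.FB

/-- the solution of `x (n + 2) = A x (n + 1) + B x n` with `x 0 = a` and `x 1 = b` -/
def sq (A B a b : ℕ) : ℕ → ℕ
  | 0 => a
  | 1 => b
  | (n + 2) => A * sq A B a b (n + 1) + B * sq A B a b n

/-- the fundamental solution -/
def U (A B : ℕ) (n : ℕ) : ℕ := sq A B 0 1 n

variable {A B : ℕ}

lemma U_zero : U A B 0 = 0 := rfl
lemma U_one : U A B 1 = 1 := rfl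
lemma U_add_two (n : ℕ) : U A B (n + 2) = A * U A B (n + 1) + B * U A B n := rfl
lemma sq_add_two (a b n : ℕ) : sq A B a b (n + 2) = A * sq A B a b (n + 1) + B * sq A B a b n := rfl

lemma sq_eq (a b : ℕ) (n : ℕ) : sq A B a b (n + 1) = b * U A B (n + 1) + a * (B * U A B n) := by
  induction n using Nat.strong_induction_on with
  | _ n ih =>
    match n with
    | 0 => simp [sq, U]
    | 1 => simp [sq, U]; ring
    | (n + 2) =>
      have h1 := ih (n + 1) (by omega)
      have h2 := ih n (by omega)
      rw [show n + 2 + 1 = (n + 1) + 2 from rfl, sq_add_two, U_add_two (n + 1)]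
      rw [show n + 1 + 1 = n + 2 from rfl] at *
      rw [h1, h2, U_add_two n]
      ring

lemma U_add (m n : ℕ) : U A B (m + n + 1) = U A B (m + 1) * U A B (n + 1) + B * U A B m * U A B n := by
  induction m using Nat.strong_induction_on with
  | _ m ih =>
    match m with
    | 0 => simp [U_zero, U_one]
    | 1 =>
      rw [show 1 + n + 1 = n + 2 by ring, U_add_two n, show (1 : ℕ) + 1 = 0 + 2 from rfl, U_add_two 0]
      simp [U_zero, U_one]
    | (m + 2) =>
      have h1 := ih (m + 1) (by omega)
      have h2 := ih m (by omega)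
      rw [show m + 2 + n + 1 = (m + n + 1) + 2 by ring, U_add_two (m + n + 1),
        show m + n + 1 + 1 = m + 1 + n + 1 by ring, h1, h2, show m + 2 + 1 = (m + 1) + 2 from rfl,
        U_add_two (m + 1), show m + 1 + 1 = m + 2 from rfl, U_add_two m]
      ring

lemma U_cop_B (h : A.Coprime B) (n : ℕ) : (U A B (n + 1)).Coprime B := by
  induction n with
  | zero => simp [U_one]
  | succ n ih =>
    rw [show n + 1 + 1 = n + 2 from rfl, U_add_two]
    rw [Nat.coprime_add_mul_left_left]
    exact Nat.Coprime.mul_left h ih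

lemma U_cop_succ (h : A.Coprime B) (n : ℕ) : (U A B (n + 1)).Coprime (U A B n) := by
  induction n with
  | zero => simp [U_one]
  | succ n ih =>
    rw [show n + 1 + 1 = n + 2 from rfl, U_add_two]
    rw [Nat.add_comm, Nat.coprime_add_mul_right_left]
    exact Nat.Coprime.mul_left (U_cop_B h n).symm ih.symm

lemma U_pos (hA : 1 ≤ A) (n : ℕ) : 1 ≤ U A B (n + 1) := by
  induction n with
  | zero => simp [U_one]
  | succ n ih =>
    rw [show n + 1 + 1 = n + 2 from rfl, U_add_two]
    nlinarith [Nat.zero_le (B * U A B n)]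

lemma U_pos' (hA : 1 ≤ A) {n : ℕ} (hn : 1 ≤ n) : 1 ≤ U A B n := by
  obtain ⟨m, rfl⟩ : ∃ m, n = m + 1 := ⟨n - 1, by omega⟩
  exact U_pos hA m

lemma U_le_succ (hA : 1 ≤ A) (n : ℕ) : U A B n ≤ U A B (n + 1) := by
  match n with
  | 0 => simp [U_zero]
  | (n + 1) =>
    rw [U_add_two]
    nlinarith [Nat.zero_le (B * U A B n), Nat.zero_le (U A B (n + 1))]

lemma U_le_pow (hA : 1 ≤ A) (n : ℕ) : U A B n ≤ (A + B) ^ n := by
  induction n using Nat.strong_induction_on with
  | _ n ih =>
    match n with
    | 0 => simp [U_zero]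
    | 1 => simp [U_one]; omega
    | (n + 2) =>
      have h1 := ih (n + 1) (by omega)
      have h2 := ih n (by omega)
      have h3 : (A + B) ^ n ≤ (A + B) ^ (n + 1) := Nat.pow_le_pow_right (by omega) (by omega)
      rw [U_add_two]
      calc A * U A B (n + 1) + B * U A B n ≤ A * (A + B) ^ (n + 1) + B * (A + B) ^ (n + 1) := by
            gcongr
            exact h2.trans h3
        _ = _ := by ring

/-- the determinant -/
lemma U_det (m k : ℕ) : (U A B (m + 1) : ℤ) * U A B (m + k) - U A B m * U A B (m + k + 1) =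
    (-(B : ℤ)) ^ m * U A B k := by
  induction m generalizing k with
  | zero => simp [U_zero, U_one]
  | succ m ih =>
    have h1 := ih k
    rw [show m + 1 + 1 = m + 2 from rfl, U_add_two m, show m + 1 + k = m + k + 1 by ring,
      show m + k + 1 + 1 = m + k + 2 by ring, U_add_two (m + k)]
    push_cast
    rw [pow_succ]
    linear_combination (-(B : ℤ)) * h1

lemma U_gcd_add (h : A.Coprime B) (m n : ℕ) (hm : 1 ≤ m) :
    Nat.gcd (U A B m) (U A B (m + n)) = Nat.gcd (U A B m) (U A B n) := by
  obtain ⟨m', rfl⟩ : ∃ m', m = m' + 1 := ⟨m - 1, by omega⟩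
  have h0 : U A B (m' + 1 + n) = B * U A B m' * U A B n + U A B (m' + 1) * U A B (n + 1) := by
    rw [show m' + 1 + n = m' + n + 1 by ring, U_add]
    ring
  rw [h0, Nat.gcd_add_mul_left_right]
  have h1 : (U A B (m' + 1)).Coprime (B * U A B m') := Nat.Coprime.mul_right (U_cop_B h m') (U_cop_succ h m')
  exact h1.symm.gcd_mul_left_cancel_right _

/-- a common divisor of two terms divides the term of the greatest common divisor of the indices -/
lemma U_gcd (h : A.Coprime B) (m n : ℕ) : Nat.gcd (U A B m) (U A B n) = U A B (Nat.gcd m n) := by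
  induction m, n using Nat.gcd.induction with
  | H0 n => simp [U_zero]
  | H1 m n hm ih =>
    have key : ∀ q r : ℕ, Nat.gcd (U A B m) (U A B (r + m * q)) = Nat.gcd (U A B m) (U A B r) := by
      intro q
      induction q with
      | zero => intro r; simp
      | succ q ihq =>
        intro r
        rw [show r + m * (q + 1) = m + (r + m * q) by ring, U_gcd_add h m _ hm, ihq]
    have h2 : Nat.gcd (U A B m) (U A B n) = Nat.gcd (U A B (n % m)) (U A B m) := by
      conv_lhs => rw [← Nat.mod_add_div n m]
      rw [key, Nat.gcd_comm]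
    rw [h2, ih, ← Nat.gcd_rec]

end Pool.Agent.K4H3.FB
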