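import Pool.Agent.W93.HD2
import Pool.Agent.K4H3.FB.B1

/-! Romanoff's sum, with powers, for a general sequence whose terms have common prime divisors only if
the term of the greatest common divisor of the indices has them. -/

set_option autoImplicit false

namespace Pool.Agent.K4H3.FB
open Finset
open Pool.Agent.H373R2.T7
open Pool.Agent.W93.HD

/-- the weight of a set of primes -/
noncomputable def wK (K : ℝ) (T : Finset ℕ) : ℝ := ∏ p ∈ T, K / (p : ℝ)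

lemma wK_nonneg {K : ℝ} (hK : 0 ≤ K) (T : Finset ℕ) : 0 ≤ wK K T := prod_nonneg fun _ _ => by positivity

lemma prod_eq_wK (K : ℝ) (S : Finset ℕ) : ∏ p ∈ S, (1 + K / (p : ℝ)) = ∑ T ∈ S.powerset, wK K T := by
  classical
  rw [Finset.prod_one_add]
  rfl

/-- the least index all of whose ... -/
noncomputable def oK (u : ℕ → ℕ) (T : Finset ℕ) : ℕ := sInf {s : ℕ | 1 ≤ s ∧ ∀ p ∈ T, p ∣ u s}

lemma oK_mem (u : ℕ → ℕ) (T : Finset ℕ) (s : ℕ) (hs : 1 ≤ s) (h : ∀ p ∈ T, p ∣ u s) :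
    1 ≤ oK u T ∧ ∀ p ∈ T, p ∣ u (oK u T) :=
  Nat.sInf_mem (s := {s : ℕ | 1 ≤ s ∧ ∀ p ∈ T, p ∣ u s}) ⟨s, hs, h⟩

lemma oK_dvd (u : ℕ → ℕ) (hu : ∀ p s t : ℕ, p.Prime → 1 ≤ s → 1 ≤ t → p ∣ u s → p ∣ u t → p ∣ u (Nat.gcd s t))
    (T : Finset ℕ) (hT : ∀ p ∈ T, p.Prime) (s : ℕ) (hs : 1 ≤ s) (h : ∀ p ∈ T, p ∣ u s) : oK u T ∣ s := by
  obtain ⟨h1, h2⟩ := oK_mem u T s hs h
  have h3 : 1 ≤ Nat.gcd s (oK u T) ∧ ∀ p ∈ T, p ∣ u (Nat.gcd s (oK u T)) := by
    refine ⟨Nat.gcd_pos_of_pos_left _ hs, fun p hp => ?_⟩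
    exact hu p s (oK u T) (hT p hp) hs h1 (h p hp) (h2 p hp)
  have h4 : oK u T ≤ Nat.gcd s (oK u T) := Nat.sInf_le h3
  have h5 : Nat.gcd s (oK u T) ≤ oK u T := Nat.gcd_le_right _ h1
  have h6 : Nat.gcd s (oK u T) = oK u T := le_antisymm h5 h4
  rw [← h6]
  exact Nat.gcd_dvd_left _ _

/-- the number of prime factors -/
lemma card_pf_le' (m L : ℕ) (hm : 1 ≤ m) (h : m ≤ 2 ^ L) : m.primeFactors.card ≤ L := by
  have h1 : 2 ^ m.primeFactors.card ≤ ∏ p ∈ m.primeFactors, p :=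
    Finset.pow_card_le_prod _ _ _ (fun p hp => (Nat.prime_of_mem_primeFactors hp).two_le)
  have h2 : ∏ p ∈ m.primeFactors, p ≤ m := Nat.le_of_dvd hm (Nat.prod_primeFactors_dvd _)
  exact (Nat.pow_le_pow_iff_right (by norm_num)).1 (h1.trans (h2.trans h))

lemma log_pow_le (K : ℕ) (c : ℝ) (hc : 1 ≤ c) : ∃ C : ℝ, 0 ≤ C ∧ ∀ x : ℝ, 1 ≤ x →
    (Real.log (c * x)) ^ K ≤ C * √x := by
  -- log (c x) ≤ (1/ε) (c x)^ε, ε = 1/(2K)
  rcases Nat.eq_zero_or_pos K with hK | hK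
  · subst hK
    refine ⟨1, by norm_num, fun x hx => ?_⟩
    simpa using Real.one_le_sqrt.2 hx
  · refine ⟨(2 * K) ^ K * √c, by positivity, fun x hx => ?_⟩
    have hK0 : (0 : ℝ) < K := by exact_mod_cast hK
    have hcx : 1 ≤ c * x := by nlinarith
    have h1 : Real.log (c * x) ≤ (c * x) ^ (1 / (2 * (K : ℝ))) / (1 / (2 * (K : ℝ))) :=
      Real.log_le_rpow_div (by positivity) (by positivity)
    have h2 : (Real.log (c * x)) ^ K ≤ ((c * x) ^ (1 / (2 * (K : ℝ))) / (1 / (2 * (K : ℝ)))) ^ K :=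
      pow_le_pow_left₀ (Real.log_nonneg hcx) h1 K
    refine h2.trans (le_of_eq ?_)
    rw [div_pow, ← Real.rpow_natCast ((c * x) ^ (1 / (2 * (K : ℝ)))) K, ← Real.rpow_mul (by positivity)]
    have h3 : 1 / (2 * (K : ℝ)) * K = 1 / 2 := by field_simp
    rw [h3, ← Real.sqrt_eq_rpow, Real.sqrt_mul (by positivity)]
    rw [one_div, inv_pow, div_inv_eq_mul]
    ring

lemma one_add_mul_le (K : ℕ) (p : ℕ) : 1 + (K : ℝ) / p ≤ (1 + 1 / (p : ℝ)) ^ K := by
  have := one_add_mul_le_pow (show (-2 : ℝ) ≤ 1 / (p : ℝ) by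
    have : (0 : ℝ) ≤ 1 / (p : ℝ) := by positivity
    linarith) K
  calc 1 + (K : ℝ) / p = 1 + (K : ℝ) * (1 / p) := by ring
    _ ≤ _ := this

/-- Romanoff's sum -/
theorem romanoffK (u : ℕ → ℕ) (L K : ℕ) (hu1 : ∀ s, 1 ≤ s → 1 ≤ u s) (huL : ∀ s, 1 ≤ s → u s ≤ 2 ^ (L * s))
    (hu : ∀ p s t : ℕ, p.Prime → 1 ≤ s → 1 ≤ t → p ∣ u s → p ∣ u t → p ∣ u (Nat.gcd s t)) :
    ∃ C : ℝ, 0 ≤ C ∧ ∀ n : ℕ, ∑ s ∈ Icc 1 n, ∏ p ∈ (u s).primeFactors, (1 + (K : ℝ) / p) ≤ C * n := by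
  classical
  obtain ⟨C, hC1, hC⟩ := mert_prod
  have hL3 : (1 : ℝ) ≤ (L : ℝ) + 3 := by
    have : (0 : ℝ) ≤ L := Nat.cast_nonneg _
    linarith
  obtain ⟨C2, hC20, hC2⟩ := log_pow_le (2 * K) (L + 3) hL3
  have hKn : (0 : ℝ) ≤ (K : ℝ) := Nat.cast_nonneg _
  obtain ⟨C', hC'⟩ : ∃ C' : ℝ, C' = (3 * C) ^ K * (1 + 2 ^ (2 * K) * C2) := ⟨_, rfl⟩
  have hC0 : 0 ≤ C := by linarith
  have hC'0 : 0 ≤ C' := by rw [hC']; positivity
  set α : ℕ → ℝ := fun o => ∑ T ∈ ((u o).primeFactors.powerset).filter (fun T => oK u T = o), wK K T with hα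
  have hα0 : ∀ o, 0 ≤ α o := fun o => sum_nonneg fun T _ => wK_nonneg hKn T
  -- the partial sums
  have hA : ∀ x : ℕ, 1 ≤ x → ∑ o ∈ Icc 1 x, α o ≤ C' * √(x : ℝ) := by
    intro x hx
    set V := (Icc 1 x).biUnion (fun o => (u o).primeFactors) with hV
    have h1 : ∑ o ∈ Icc 1 x, α o ≤ ∑ T ∈ V.powerset, wK K T := by
      have h2 : ∀ o ∈ Icc 1 x, α o ≤ ∑ T ∈ V.powerset, (if oK u T = o then wK K T else 0) := by
        intro o ho
        rw [← sum_filter]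
        apply sum_le_sum_of_subset_of_nonneg
        · apply filter_subset_filter
          apply powerset_mono.2
          intro p hp
          exact mem_biUnion.2 ⟨o, ho, hp⟩
        · intro T _ _
          exact wK_nonneg hKn T
      refine (sum_le_sum h2).trans ?_
      rw [sum_comm]
      apply sum_le_sum
      intro T _
      rw [sum_ite_eq]
      split_ifs
      · exact le_rfl
      · exact wK_nonneg hKn T
    rw [← prod_eq_wK] at h1
    have hcard : V.card ≤ L * x * x + 3 := by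
      have h2 : V.card ≤ ∑ o ∈ Icc 1 x, L * x := by
        refine card_biUnion_le.trans (sum_le_sum fun o ho => ?_)
        rw [mem_Icc] at ho
        exact (card_pf_le' _ (L * o) (hu1 o ho.1) (huL o ho.1)).trans (Nat.mul_le_mul_left _ ho.2)
      rw [sum_const, Nat.card_Icc, smul_eq_mul] at h2
      have : (x + 1 - 1) * (L * x) = L * x * x := by rw [Nat.add_sub_cancel]; ring
      omega
    have h3 := prod_U C (by linarith) hC V (by
      intro p hp
      obtain ⟨o, _, hp⟩ := mem_biUnion.1 hp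
      exact Nat.prime_of_mem_primeFactors hp) (L * x * x + 3) (by omega) hcard
    have h1' : ∏ p ∈ V, (1 + (K : ℝ) / p) ≤ (∏ p ∈ V, (1 + 1 / (p : ℝ))) ^ K := by
      rw [← prod_pow]
      exact prod_le_prod (fun p _ => by positivity) fun p _ => one_add_mul_le K p
    have hxr : (1 : ℝ) ≤ x := by exact_mod_cast hx
    have hLr : (0 : ℝ) ≤ L := Nat.cast_nonneg _
    have h5 : ((L * x * x + 3 : ℕ) : ℝ) ≤ ((L + 3 : ℝ) * x) ^ 2 := by
      push_cast
      nlinarith [mul_le_mul hxr hxr (by norm_num) (by linarith), mul_nonneg hLr (mul_nonneg (by linarith : (0:ℝ) ≤ x) (by linarith : (0:ℝ) ≤ x)), mul_nonneg (mul_nonneg hLr hLr) (mul_nonneg (by linarith : (0:ℝ) ≤ x) (by linarith : (0:ℝ) ≤ x))]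
    have h6 : Real.log ((L * x * x + 3 : ℕ) : ℝ) ≤ 2 * Real.log ((L + 3 : ℝ) * x) := by
      have := Real.log_le_log (by positivity) h5
      rw [Real.log_pow] at this
      exact_mod_cast this
    have h60 : 0 ≤ Real.log ((L * x * x + 3 : ℕ) : ℝ) := Real.log_natCast_nonneg _
    have h61 : 0 ≤ Real.log ((L + 3 : ℝ) * x) := by linarith
    calc ∑ o ∈ Icc 1 x, α o ≤ (∏ p ∈ V, (1 + 1 / (p : ℝ))) ^ K := h1.trans h1'
      _ ≤ (3 * C * Real.log ((L * x * x + 3 : ℕ) : ℝ)) ^ K :=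
          pow_le_pow_left₀ (prod_nonneg fun _ _ => by positivity) h3 K
      _ = (3 * C) ^ K * Real.log ((L * x * x + 3 : ℕ) : ℝ) ^ K := by rw [mul_pow]
      _ ≤ (3 * C) ^ K * ((1 + 2 ^ (2 * K) * C2) * √(x : ℝ)) := by
          apply mul_le_mul_of_nonneg_left _ (by positivity)
          have h7 : Real.log ((L * x * x + 3 : ℕ) : ℝ) ^ K ≤ 1 + Real.log ((L * x * x + 3 : ℕ) : ℝ) ^ (2 * K) := by
            have : Real.log ((L * x * x + 3 : ℕ) : ℝ) ^ (2 * K) = (Real.log ((L * x * x + 3 : ℕ) : ℝ) ^ K) ^ 2 := by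
              rw [← pow_mul]; ring_nf
            rw [this]
            nlinarith [sq_nonneg (Real.log ((L * x * x + 3 : ℕ) : ℝ) ^ K - 1), sq_nonneg (Real.log ((L * x * x + 3 : ℕ) : ℝ) ^ K)]
          have h8 : Real.log ((L * x * x + 3 : ℕ) : ℝ) ^ (2 * K) ≤ 2 ^ (2 * K) * (C2 * √(x : ℝ)) := by
            refine (pow_le_pow_left₀ h60 h6 _).trans ?_
            rw [mul_pow]
            exact mul_le_mul_of_nonneg_left (hC2 x hxr) (by positivity)
          have h9 : 1 ≤ √(x : ℝ) := Real.one_le_sqrt.2 hxr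
          nlinarith
      _ = C' * √(x : ℝ) := by rw [hC']; ring
  refine ⟨3 * C', by positivity, fun n => ?_⟩
  rcases Nat.eq_zero_or_pos n with hn | hn
  · subst hn; simp
  have hn0 : (0 : ℝ) < n := by exact_mod_cast hn
  -- the rows
  have hrow : ∀ s ∈ Icc 1 n, ∏ p ∈ (u s).primeFactors, (1 + (K : ℝ) / p) ≤ ∑ o ∈ Icc 1 n, (if o ∣ s then α o else 0) := by
    intro s hs
    rw [mem_Icc] at hs
    rw [prod_eq_wK]
    have hmaps : ∀ T ∈ (u s).primeFactors.powerset, oK u T ∈ Icc 1 n := by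
      intro T hT
      rw [mem_powerset] at hT
      have h1 : ∀ p ∈ T, p ∣ u s := fun p hp => Nat.dvd_of_mem_primeFactors (hT hp)
      have h0 : ∀ p ∈ T, p.Prime := fun p hp => Nat.prime_of_mem_primeFactors (hT hp)
      rw [mem_Icc]
      exact ⟨(oK_mem u T s hs.1 h1).1, (Nat.le_of_dvd (by omega) (oK_dvd u hu T h0 s hs.1 h1)).trans hs.2⟩
    rw [← sum_fiberwise_of_maps_to hmaps]
    apply sum_le_sum
    intro o ho
    rw [mem_Icc] at ho
    by_cases hd : o ∣ s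
    · rw [if_pos hd]
      apply sum_le_sum_of_subset_of_nonneg
      · intro T hT
        rw [mem_filter, mem_powerset] at hT ⊢
        refine ⟨?_, hT.2⟩
        intro p hp
        have h1 : ∀ p ∈ T, p ∣ u s := fun p hp => Nat.dvd_of_mem_primeFactors (hT.1 hp)
        have h2 := (oK_mem u T s hs.1 h1).2 p hp
        rw [hT.2] at h2
        rw [Nat.mem_primeFactors]
        exact ⟨Nat.prime_of_mem_primeFactors (hT.1 hp), h2, by have := hu1 o ho.1; omega⟩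
      · intro T _ _
        exact wK_nonneg hKn T
    · rw [if_neg hd]
      apply le_of_eq
      apply sum_eq_zero
      intro T hT
      exfalso
      rw [mem_filter, mem_powerset] at hT
      have h1 : ∀ p ∈ T, p ∣ u s := fun p hp => Nat.dvd_of_mem_primeFactors (hT.1 hp)
      have h0 : ∀ p ∈ T, p.Prime := fun p hp => Nat.prime_of_mem_primeFactors (hT.1 hp)
      apply hd
      rw [← hT.2]
      exact oK_dvd u hu T h0 s hs.1 h1
  refine (sum_le_sum hrow).trans ?_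
  rw [sum_comm]
  have hcol : ∀ o ∈ Icc 1 n, ∑ s ∈ Icc 1 n, (if o ∣ s then α o else 0) ≤ n * (α o / o) := by
    intro o ho
    rw [mem_Icc] at ho
    rw [← sum_filter, sum_const, nsmul_eq_mul]
    have h1 : ((Icc 1 n).filter (fun s => o ∣ s)).card = n / o := by
      have := Nat.Ioc_filter_dvd_card_eq_div n o
      rw [← this]
      congr 1
    rw [h1]
    have ho0 : (0 : ℝ) < o := by exact_mod_cast (by omega : 0 < o)
    have h2 : ((n / o : ℕ) : ℝ) ≤ n / o := Nat.cast_div_le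
    calc ((n / o : ℕ) : ℝ) * α o ≤ (n / o) * α o := mul_le_mul_of_nonneg_right h2 (hα0 o)
      _ = _ := by ring
  refine (sum_le_sum hcol).trans ?_
  rw [← mul_sum]
  have h1 := abel_sum α C' hC'0 hA n
  have h2 : (∑ o ∈ Icc 1 n, α o) / ((n : ℝ) + 1) ≤ C' := by
    rw [div_le_iff₀ (by positivity)]
    refine (hA n hn).trans ?_
    apply mul_le_mul_of_nonneg_left _ hC'0
    rw [Real.sqrt_le_left (by positivity)]
    nlinarith
  have h3 : C' * (2 - 2 / √((n : ℝ) + 1)) ≤ C' * 2 := by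
    apply mul_le_mul_of_nonneg_left _ hC'0
    have : 0 ≤ 2 / √((n : ℝ) + 1) := by positivity
    linarith
  have h4 : ∑ o ∈ Icc 1 n, α o / o ≤ 3 * C' := by linarith
  calc (n : ℝ) * ∑ o ∈ Icc 1 n, α o / o ≤ n * (3 * C') := mul_le_mul_of_nonneg_left h4 hn0.le
    _ = _ := by ring

end Pool.Agent.K4H3.FB
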