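import Pool.Agent.H374R2.CofC
import Pool.Agent.K4H3.FB.B1

/-! Moduli `M` with large `M / φ(M)` and a class of starting pairs modulo `M` all of whose terms are
coprime to `M`. -/

set_option autoImplicit false

namespace Pool.Agent.K4H3.FB
open Finset

variable {A B : ℕ}

/-- a root of `t ^ 2 = A t + B` modulo `p` -/
lemma exists_root (hA : 1 ≤ A) (hB : 1 ≤ B) (p : ℕ) [hp : Fact p.Prime] (hp1 : p ≡ 1 [MOD 4 * (A ^ 2 + 4 * B) * B]) :
    ∃ r : ZMod p, r ^ 2 = A * r + B ∧ r ≠ 0 := by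
  set D : ℕ := A ^ 2 + 4 * B with hD
  have hD5 : 5 ≤ D := by nlinarith
  have hpp := hp.out
  have h1 : p ≡ 1 [MOD 4 * D] := hp1.of_mul_right B
  have hp2 : Odd p := by
    have h4 : p ≡ 1 [MOD 4] := h1.of_mul_right D
    have : p ≡ 1 [MOD 2] := h4.of_dvd (by norm_num)
    rw [Nat.odd_iff]
    exact this
  have hpne2 : p ≠ 2 := by
    rintro rfl
    exact absurd hp2 (by decide)
  have hpD : ¬ p ∣ D := by
    intro h
    have h2 : p ∣ 4 * D := Dvd.dvd.mul_left h 4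
    have h3 : p ∣ p - 1 + 0 := by
      have h4 := (Nat.modEq_iff_dvd' hpp.one_lt.le).1 h1.symm
      exact dvd_trans h2 h4
    rw [Nat.add_zero] at h3
    have := Nat.le_of_dvd (by have := hpp.two_le; omega) h3
    have := hpp.two_le
    omega
  have hpB : ¬ p ∣ B := by
    intro h
    have h2 : p ∣ 4 * D * B := Dvd.dvd.mul_left h _
    have h3 : p ∣ p - 1 := by
      have h4 := (Nat.modEq_iff_dvd' hpp.one_lt.le).1 hp1.symm
      exact dvd_trans h2 h4
    have := Nat.le_of_dvd (by have := hpp.two_le; omega) h3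
    have := hpp.two_le
    omega
  have hJ : jacobiSym (D : ℤ) p = 1 := by
    rw [jacobiSym.mod_right (D : ℤ) hp2, Int.natAbs_natCast]
    have h5 : p % (4 * D) = 1 := by
      have := h1
      unfold Nat.ModEq at this
      rw [this, Nat.mod_eq_of_lt (by omega)]
    rw [h5, jacobiSym.one_right]
  have hL : legendreSym p (D : ℤ) = 1 := by
    rw [← hJ, jacobiSym.legendreSym.to_jacobiSym]
  have hD0 : ((D : ℤ) : ZMod p) ≠ 0 := by
    rw [Int.cast_natCast]
    intro h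
    exact hpD ((ZMod.natCast_eq_zero_iff D p).1 h)
  obtain ⟨e, he⟩ := (legendreSym.eq_one_iff p hD0).1 hL
  rw [Int.cast_natCast] at he
  have h20 : (2 : ZMod p) ≠ 0 := by
    intro h
    have : ((2 : ℕ) : ZMod p) = 0 := by exact_mod_cast h
    rw [ZMod.natCast_eq_zero_iff] at this
    exact hpne2 ((Nat.prime_dvd_prime_iff_eq hpp Nat.prime_two).1 this)
  have hDe : ((D : ℕ) : ZMod p) = (A : ZMod p) ^ 2 + 4 * B := by rw [hD]; push_cast; ring
  refine ⟨((A : ZMod p) + e) / 2, ?_, ?_⟩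
  · field_simp
    rw [hDe] at he
    linear_combination -he
  · intro h0
    have h1 : ((A : ZMod p) + e) = 0 := by
      rcases div_eq_zero_iff.1 h0 with h | h
      · exact h
      · exact absurd h h20
    have h2 : (4 : ZMod p) * B = 0 := by
      rw [hDe] at he
      have : e = - A := by linear_combination h1
      rw [this] at he
      linear_combination he
    have h40 : (4 : ZMod p) ≠ 0 := by
      have : (4 : ZMod p) = 2 * 2 := by norm_num
      rw [this]; exact mul_ne_zero h20 h20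
    rcases mul_eq_zero.1 h2 with h | h
    · exact h40 h
    · exact hpB ((ZMod.natCast_eq_zero_iff B p).1 h)

lemma sq_cast_root (p : ℕ) (r : ZMod p) (hr : r ^ 2 = A * r + B) (b : ℕ) (hb : (b : ZMod p) = r) (n : ℕ) :
    ((sq A B 1 b n : ℕ) : ZMod p) = r ^ n := by
  induction n using Nat.strong_induction_on with
  | _ n ih =>
    match n with
    | 0 => simp [sq]
    | 1 => simp [sq, hb]
    | (n + 2) =>
      have h1 := ih (n + 1) (by omega)
      have h2 := ih n (by omega)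
      rw [sq_add_two]
      push_cast
      rw [h1, h2]
      linear_combination (-(r ^ n)) * hr

/-- `n / φ(n)` -/
noncomputable def ρ (n : ℕ) : ℝ := ∏ p ∈ n.primeFactors, (1 - 1 / (p : ℝ))⁻¹

lemma fac_pos {p : ℕ} (hp : p.Prime) : 0 < 1 - 1 / (p : ℝ) := by
  have : (2 : ℝ) ≤ p := by exact_mod_cast hp.two_le
  have h2 : 1 / (p : ℝ) ≤ 1 / 2 := one_div_le_one_div_of_le (by norm_num) this
  linarith

lemma fac_ge {p : ℕ} (hp : p.Prime) : 1 + 1 / (p : ℝ) ≤ (1 - 1 / (p : ℝ))⁻¹ := by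
  have h0 := fac_pos hp
  have h1 : (0 : ℝ) ≤ 1 / (p : ℝ) := by positivity
  rw [le_inv_comm₀ (by positivity) h0]
  rw [← one_div, le_div_iff₀ (by positivity)]
  nlinarith

lemma fac_one_le {p : ℕ} (hp : p.Prime) : 1 ≤ (1 - 1 / (p : ℝ))⁻¹ := by
  have := fac_ge hp
  have h1 : (0 : ℝ) ≤ 1 / (p : ℝ) := by positivity
  linarith

lemma one_add_sum_le (F : Finset ℕ) : 1 + ∑ p ∈ F, 1 / (p : ℝ) ≤ ∏ p ∈ F, (1 + 1 / (p : ℝ)) := by
  classical
  induction F using Finset.induction_on with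
  | empty => simp
  | insert a s ha ih =>
    rw [prod_insert ha, sum_insert ha]
    have h1 : (0 : ℝ) ≤ 1 / a := by positivity
    have h2 : 0 ≤ ∑ p ∈ s, 1 / (p : ℝ) := sum_nonneg fun _ _ => by positivity
    nlinarith

/-- the moduli -/
theorem exists_class (hA : 1 ≤ A) (hB : 1 ≤ B) (T : ℝ) :
    ∃ M b₀ : ℕ, 1 ≤ M ∧ 1 ≤ b₀ ∧ b₀ ≤ M ∧ T ≤ ρ M ∧ ∀ n, (sq A B 1 b₀ n).Coprime M := by
  classical
  obtain ⟨F, hF, hsum⟩ := Pool.Agent.H374R2.Cof.exists_primes_class (4 * (A ^ 2 + 4 * B) * B)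
    (by positivity) 1 (by simp) T
  have hpr : ∀ p ∈ F, p.Prime := fun p hp => (hF p hp).1
  have hroot : ∀ p ∈ F, ∃ r : ℕ, (r : ZMod p) ^ 2 = A * r + B ∧ (r : ZMod p) ≠ 0 := by
    intro p hp
    haveI : Fact p.Prime := ⟨hpr p hp⟩
    obtain ⟨r, h1, h2⟩ := exists_root hA hB p (hF p hp).2
    refine ⟨r.val, ?_, ?_⟩
    · rw [ZMod.natCast_zmod_val]; exact h1
    · rw [ZMod.natCast_zmod_val]; exact h2
  choose! r hr using hroot
  set M : ℕ := ∏ p ∈ F, p with hM
  have hM1 : 1 ≤ M := Finset.prod_pos fun p hp => (hpr p hp).pos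
  have hco : Set.Pairwise (F : Set ℕ) (Function.onFun Nat.Coprime (fun p : ℕ => p)) := by
    intro p hp q hq hpq
    exact (Nat.coprime_primes (hpr p hp) (hpr q hq)).2 hpq
  obtain ⟨b, hb⟩ : ∃ b : ℕ, ∀ p ∈ F, (b : ZMod p) = (r p : ZMod p) := by
    refine ⟨(Nat.chineseRemainderOfFinset r (fun p : ℕ => p) F
      (fun p hp => (hpr p hp).ne_zero) hco : ℕ), fun p hp => ?_⟩
    have h1 := (Nat.chineseRemainderOfFinset r (fun p : ℕ => p) F
      (fun p hp => (hpr p hp).ne_zero) hco).2 p hp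
    exact (ZMod.natCast_eq_natCast_iff _ _ p).2 h1
  -- reduce b to [1, M]
  obtain ⟨b₀, hb01, hb0M, hb0⟩ : ∃ b₀ : ℕ, 1 ≤ b₀ ∧ b₀ ≤ M ∧ b₀ ≡ b [MOD M] := by
    rcases Nat.eq_zero_or_pos (b % M) with h | h
    · refine ⟨M, hM1, le_rfl, ?_⟩
      unfold Nat.ModEq
      rw [Nat.mod_self, h]
    · refine ⟨b % M, h, (Nat.mod_lt _ hM1).le, Nat.mod_modEq b M⟩
  refine ⟨M, b₀, hM1, hb01, hb0M, ?_, ?_⟩
  · have h1 : M.primeFactors = F := by
      rw [hM, Nat.primeFactors_prod hpr]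
    unfold ρ
    rw [h1]
    calc T ≤ 1 + ∑ p ∈ F, 1 / (p : ℝ) := by linarith
      _ ≤ ∏ p ∈ F, (1 + 1 / (p : ℝ)) := one_add_sum_le F
      _ ≤ _ := prod_le_prod (fun p _ => by positivity) fun p hp => fac_ge (hpr p hp)
  · intro n
    rw [hM]
    apply Nat.Coprime.prod_right
    intro p hp
    have hpp := hpr p hp
    haveI : Fact p.Prime := ⟨hpp⟩
    have hbp : (b₀ : ZMod p) = (r p : ZMod p) := by
      rw [← hb p hp]
      rw [ZMod.natCast_eq_natCast_iff]
      exact hb0.of_dvd (Finset.dvd_prod_of_mem _ hp)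
    have h1 := sq_cast_root p (r p) (hr p hp).1 b₀ hbp n
    rw [Nat.coprime_comm, hpp.coprime_iff_not_dvd]
    intro h
    have h2 : ((sq A B 1 b₀ n : ℕ) : ZMod p) = 0 := (ZMod.natCast_eq_zero_iff _ p).2 h
    rw [h1] at h2
    exact pow_ne_zero n (hr p hp).2 h2

end Pool.Agent.K4H3.FB
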