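import Pool.Agent.TH423.SH.PAIP
import Pool.Agent.K4H3.FB.B3

/-! The first moment: lower bound for the number of starting pairs in a class whose term of index
`n + 1` is prime. -/

set_option autoImplicit false

namespace Pool.Agent.K4H3.FB
open Finset

variable {A B : ℕ}

lemma rho_eq (m : ℕ) (hm : 1 ≤ m) : (m : ℝ) / (m.totient : ℝ) = ρ m := by
  have h1 : (m.totient : ℝ) = m * ∏ p ∈ m.primeFactors, (1 - (p : ℝ)⁻¹) := by
    have := Nat.totient_eq_mul_prod_factors m
    have h2 := congrArg (fun q : ℚ => (q : ℝ)) this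
    push_cast at h2
    exact h2
  have hm0 : (0 : ℝ) < m := by exact_mod_cast hm
  unfold ρ
  rw [Finset.prod_inv_distrib, h1]
  have h3 : 0 < ∏ p ∈ m.primeFactors, (1 - 1 / (p : ℝ)) :=
    prod_pos fun p hp => fac_pos (Nat.prime_of_mem_primeFactors hp)
  have h4 : ∏ p ∈ m.primeFactors, (1 - (p : ℝ)⁻¹) = ∏ p ∈ m.primeFactors, (1 - 1 / (p : ℝ)) := by
    apply prod_congr rfl
    intro p _
    rw [one_div]
  rw [h4]
  field_simp

lemma exists_res (u v h : ℕ) (hu : 1 ≤ u) (hc : v.Coprime u) : ∃ r < u, r * v ≡ h [MOD u] := by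
  haveI : NeZero u := ⟨by omega⟩
  refine ⟨((h : ZMod u) * ((ZMod.unitOfCoprime v hc)⁻¹ : (ZMod u)ˣ)).val, ZMod.val_lt _, ?_⟩
  apply (ZMod.natCast_eq_natCast_iff _ _ u).1
  push_cast
  rw [ZMod.natCast_zmod_val, mul_assoc]
  have : ((ZMod.unitOfCoprime v hc)⁻¹ : (ZMod u)ˣ) * (v : ZMod u) = 1 := by
    have h1 : (v : ZMod u) = (ZMod.unitOfCoprime v hc : ZMod u) := (ZMod.coe_unitOfCoprime v hc).symm
    rw [h1]
    exact Units.inv_mul _
  rw [this, mul_one]

/-- the representations -/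
lemma reps (M g u v Y q₀ : ℕ) (B : ℕ) (hu : 1 ≤ u) (hvB : v ≤ B * u) (hc : v.Coprime u)
    (hq : q₀ = Y / (4 * B * u)) (hB : 1 ≤ B) (hY : 1 ≤ Y) (P : ℕ → Prop) [DecidablePred P] :
    q₀ * ((Ioc (u * Y / 4 + 1) (u * Y / 2)).filter (fun h => P (g + M * h))).card ≤
      ((range Y ×ˢ range Y).filter (fun z => P (g + M * (z.2 * u + z.1 * v)))).card := by
  classical
  choose r hr1 hr2 using fun h => exists_res u v h hu hc
  have hq1 : q₀ * (4 * B * u) ≤ Y := by rw [hq]; exact Nat.div_mul_le_self _ _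
  rw [mul_comm, ← card_range q₀, ← card_product]
  apply card_le_card_of_injOn (fun x : ℕ × ℕ => (x.2 * u + r x.1, (x.1 - (x.2 * u + r x.1) * v) / u))
  · rintro ⟨h, i⟩ hx
    simp only [coe_product, Set.mem_prod, mem_coe, mem_filter, mem_Ioc, mem_range] at hx
    obtain ⟨⟨⟨h1, h2⟩, h3⟩, h4⟩ := hx
    simp only [coe_filter, Set.mem_setOf_eq, mem_product, mem_range]
    have hr := hr1 h
    have hs : i * u + r h + 1 ≤ q₀ * u := by
      calc i * u + r h + 1 ≤ i * u + u := by omega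
        _ = (i + 1) * u := by ring
        _ ≤ q₀ * u := Nat.mul_le_mul_right _ h4
    have hsY : 4 * B * (q₀ * u) ≤ Y := by
      calc 4 * B * (q₀ * u) = q₀ * (4 * B * u) := by ring
        _ ≤ Y := hq1
    have hsY' : q₀ * u ≤ Y := by nlinarith [Nat.zero_le (q₀ * u)]
    have hsv : (i * u + r h) * v ≤ h := by
      have e1 : 4 * ((i * u + r h) * v) ≤ u * Y := by
        calc 4 * ((i * u + r h) * v) ≤ 4 * ((q₀ * u) * (B * u)) := by
              apply Nat.mul_le_mul_left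
              exact Nat.mul_le_mul (by omega) hvB
          _ = u * (4 * B * (q₀ * u)) := by ring
          _ ≤ u * Y := Nat.mul_le_mul_left _ hsY
      omega
    have hdvd : u ∣ h - (i * u + r h) * v := by
      apply (Nat.modEq_iff_dvd' hsv).1
      have e1 : (i * u + r h) * v = r h * v + u * (i * v) := by ring
      rw [e1]
      have := (hr2 h).add_right (u * (i * v))
      unfold Nat.ModEq at *
      rw [Nat.add_mul_mod_self_left] at *
      exact hr2 h
    have ht : (h - (i * u + r h) * v) / u * u = h - (i * u + r h) * v := Nat.div_mul_cancel hdvd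
    refine ⟨⟨by omega, ?_⟩, ?_⟩
    · rw [Nat.div_lt_iff_lt_mul (by omega)]
      have : 1 ≤ u * Y := Nat.mul_pos hu hY
      have e2 : u * Y = Y * u := mul_comm _ _
      omega
    · rw [ht]
      have e3 : h - (i * u + r h) * v + (i * u + r h) * v = h := by omega
      rw [e3]
      exact h3
  · rintro ⟨h, i⟩ hx ⟨h', i'⟩ hx' he
    simp only [coe_product, Set.mem_prod, mem_coe, mem_filter, mem_Ioc, mem_range] at hx hx'
    simp only [Prod.mk.injEq] at he
    obtain ⟨he1, he2⟩ := he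
    -- recover h
    have rec' : ∀ h i : ℕ, u * Y / 4 + 1 < h → i < q₀ →
        (h - (i * u + r h) * v) / u * u + (i * u + r h) * v = h := by
      intro h i h1 h4
      have hr := hr1 h
      have hs : i * u + r h + 1 ≤ q₀ * u := by
        calc i * u + r h + 1 ≤ i * u + u := by omega
          _ = (i + 1) * u := by ring
          _ ≤ q₀ * u := Nat.mul_le_mul_right _ h4
      have hsY : 4 * B * (q₀ * u) ≤ Y := by
        calc 4 * B * (q₀ * u) = q₀ * (4 * B * u) := by ring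
          _ ≤ Y := hq1
      have hsv : (i * u + r h) * v ≤ h := by
        have e1 : 4 * ((i * u + r h) * v) ≤ u * Y := by
          calc 4 * ((i * u + r h) * v) ≤ 4 * ((q₀ * u) * (B * u)) := by
                apply Nat.mul_le_mul_left
                exact Nat.mul_le_mul (by omega) hvB
            _ = u * (4 * B * (q₀ * u)) := by ring
            _ ≤ u * Y := Nat.mul_le_mul_left _ hsY
        omega
      have hdvd : u ∣ h - (i * u + r h) * v := by
        apply (Nat.modEq_iff_dvd' hsv).1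
        have e1 : (i * u + r h) * v = r h * v + u * (i * v) := by ring
        rw [e1]
        unfold Nat.ModEq
        rw [Nat.add_mul_mod_self_left]
        exact hr2 h
      rw [Nat.div_mul_cancel hdvd]
      omega
    have g1 := rec' h i hx.1.1.1 hx.2
    have g2 := rec' h' i' hx'.1.1.1 hx'.2
    have g3 : (h - (i * u + r h) * v) / u * u + (i * u + r h) * v =
        (h' - (i' * u + r h') * v) / u * u + (i' * u + r h') * v := by rw [he2, he1]
    have hh : h = h' := g1.symm.trans (g3.trans g2)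
    subst hh
    have : i = i' := by
      have : i * u = i' * u := by omega
      exact Nat.eq_of_mul_eq_mul_right hu this
    rw [this]

lemma count_h (M g : ℕ) (hM : 1 ≤ M) (H₀ H₁ : ℕ) :
    ((Ioc (g + M * H₀) (g + M * H₁)).filter (fun q => q.Prime ∧ q % M = g % M)).card ≤
      ((Ioc H₀ H₁).filter (fun h => (g + M * h).Prime)).card := by
  classical
  apply card_le_card_of_injOn (fun q => (q - g) / M)
  · intro q hq
    simp only [coe_filter, Set.mem_setOf_eq, mem_Ioc] at hq ⊢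
    obtain ⟨⟨h1, h2⟩, h3, h4⟩ := hq
    have hgq : g ≤ q := by nlinarith [Nat.zero_le (M * H₀)]
    have hd : M ∣ q - g := (Nat.modEq_iff_dvd' hgq).1 (show g % M = q % M from h4.symm)
    obtain ⟨h, hh⟩ := hd
    have hq' : q = g + M * h := by omega
    have e : (q - g) / M = h := by rw [hh]; exact Nat.mul_div_cancel_left _ hM
    rw [e]
    refine ⟨⟨?_, ?_⟩, ?_⟩
    · have : M * H₀ < M * h := by omega
      exact lt_of_mul_lt_mul_left this (Nat.zero_le _)
    · have : M * h ≤ M * H₁ := by omega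
      exact le_of_mul_le_mul_left this (by omega)
    · rw [← hq']; exact h3
  · intro q hq q' hq' he
    simp only [coe_filter, Set.mem_setOf_eq, mem_Ioc] at hq hq'
    obtain ⟨⟨h1, h2⟩, h3, h4⟩ := hq
    obtain ⟨⟨h1', h2'⟩, h3', h4'⟩ := hq'
    have hgq : g ≤ q := by nlinarith [Nat.zero_le (M * H₀)]
    have hgq' : g ≤ q' := by nlinarith [Nat.zero_le (M * H₀)]
    have hd : M ∣ q - g := (Nat.modEq_iff_dvd' hgq).1 (show g % M = q % M from h4.symm)
    have hd' : M ∣ q' - g := (Nat.modEq_iff_dvd' hgq').1 (show g % M = q' % M from h4'.symm)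
    simp only at he
    have e1 := Nat.div_mul_cancel hd
    have e2 := Nat.div_mul_cancel hd'
    rw [he] at e1
    omega

/-- **first moment** -/
theorem first (hA : 1 ≤ A) (hB : 1 ≤ B) (hAB : A.Coprime B) (M b₀ : ℕ) (hM : 1 ≤ M) (hbM : b₀ ≤ M)
    (hcop : ∀ n, (sq A B 1 b₀ n).Coprime M) :
    ∃ Y₀ : ℕ, 2 ≤ Y₀ ∧ ∀ Y : ℕ, Y₀ ≤ Y → ∀ n : ℕ, 1 ≤ n → U A B (n + 1) ^ 2 ≤ Y →
      ρ M * (Y : ℝ) ^ 2 / (256 * B * Real.log Y) ≤
        (((range Y ×ˢ range Y).filter
          (fun z => (sq A B (1 + M * z.1) (b₀ + M * z.2) (n + 1)).Prime)).card : ℝ) := by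
  classical
  obtain ⟨x₀, hx₀⟩ := Pool.Agent.TH423.SH.pai M hM (1 / 2) (1 / 4) (by norm_num) (by norm_num)
  refine ⟨2 + 2 * ⌈x₀⌉₊ + M + B + 16 + M ^ 2 + 64 * B ^ 2, by omega, fun Y hY n hn hu2 => ?_⟩
  set u := U A B (n + 1) with hu
  set v := B * U A B n with hv
  have hu1 : 1 ≤ u := U_pos hA n
  have hvB : v ≤ B * u := Nat.mul_le_mul_left _ (U_le_succ hA n)
  have hc : v.Coprime u := by
    apply Nat.Coprime.mul_left
    · exact (U_cop_B hAB n).symm
    · exact (U_cop_succ hAB n).symm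
  set g := b₀ * u + v with hg
  have hgs : g = sq A B 1 b₀ (n + 1) := by rw [sq_eq, hg]; ring
  have hform : ∀ z : ℕ × ℕ, sq A B (1 + M * z.1) (b₀ + M * z.2) (n + 1) = g + M * (z.2 * u + z.1 * v) := by
    intro z
    rw [sq_eq, hg]
    ring
  simp only [hform]
  set q₀ := Y / (4 * B * u) with hq₀
  have hY1 : 1 ≤ Y := by omega
  have hreps := reps M g u v Y q₀ B hu1 hvB hc hq₀ hB hY1 (fun m => m.Prime)
  have hcount := count_h M g hM (u * Y / 4 + 1) (u * Y / 2)
  -- real quantities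
  have hYr : (16 : ℝ) ≤ Y := by exact_mod_cast (by omega : 16 ≤ Y)
  have hur : (1 : ℝ) ≤ u := by exact_mod_cast hu1
  have hMr : (1 : ℝ) ≤ M := by exact_mod_cast hM
  have hBr : (1 : ℝ) ≤ B := by exact_mod_cast hB
  have hu2r : (u : ℝ) ^ 2 ≤ Y := by exact_mod_cast hu2
  set x : ℝ := M * u * Y / 2 with hx
  have hxge : x₀ ≤ x := by
    have h1 : x₀ ≤ ⌈x₀⌉₊ := Nat.le_ceil _
    have h2 : ((2 * ⌈x₀⌉₊ : ℕ) : ℝ) ≤ Y := by exact_mod_cast (by omega : 2 * ⌈x₀⌉₊ ≤ Y)
    push_cast at h2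
    have h3 : (Y : ℝ) ≤ M * u * Y := by
      have : (1 : ℝ) ≤ M * u := by nlinarith
      nlinarith
    rw [hx]; linarith
  have hH0a : (u * Y : ℝ) / 4 ≤ ((u * Y / 4 + 1 : ℕ) : ℝ) := by
    have : (u * Y : ℕ) < (u * Y / 4 + 1) * 4 := by omega
    have h2 : ((u * Y : ℕ) : ℝ) < (((u * Y / 4 + 1) * 4 : ℕ) : ℝ) := by exact_mod_cast this
    push_cast at h2 ⊢
    linarith
  have hH0b : ((u * Y / 4 + 1 : ℕ) : ℝ) ≤ (u * Y : ℝ) / 4 + 1 := by
    have : (u * Y / 4) * 4 ≤ u * Y := Nat.div_mul_le_self _ _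
    have h2 : (((u * Y / 4) * 4 : ℕ) : ℝ) ≤ ((u * Y : ℕ) : ℝ) := by exact_mod_cast this
    push_cast at h2 ⊢
    linarith
  have hH1a : ((u * Y / 2 : ℕ) : ℝ) ≤ (u * Y : ℝ) / 2 := by
    have : (u * Y / 2) * 2 ≤ u * Y := Nat.div_mul_le_self _ _
    have h2 : (((u * Y / 2) * 2 : ℕ) : ℝ) ≤ ((u * Y : ℕ) : ℝ) := by exact_mod_cast this
    push_cast at h2 ⊢
    linarith
  have hH1b : (u * Y : ℝ) / 2 - 1 ≤ ((u * Y / 2 : ℕ) : ℝ) := by
    have : (u * Y : ℕ) < (u * Y / 2 + 1) * 2 := by omega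
    have h2 : ((u * Y : ℕ) : ℝ) < (((u * Y / 2 + 1) * 2 : ℕ) : ℝ) := by exact_mod_cast this
    push_cast at h2 ⊢
    linarith
  set H₀ := u * Y / 4 + 1 with hH₀
  set H₁ := u * Y / 2 with hH₁
  have huY : (16 : ℝ) ≤ u * Y := by nlinarith
  have hgr : (g : ℝ) ≤ (M + B) * u := by
    have : g ≤ (M + B) * u := by
      rw [hg]
      nlinarith [Nat.mul_le_mul_right u hbM]
    exact_mod_cast this
  have hg0 : (0 : ℝ) ≤ g := Nat.cast_nonneg _
  have hp1 : x / 2 ≤ ((g + M * H₀ : ℕ) : ℝ) := by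
    push_cast
    rw [hx]
    nlinarith
  have hp2 : ((g + M * H₁ : ℕ) : ℝ) ≤ 3 * x := by
    push_cast
    have h1 : (M : ℝ) * H₁ ≤ x := by rw [hx]; nlinarith
    have h2 : ((M + B : ℕ) : ℝ) ≤ Y := by exact_mod_cast (by omega : M + B ≤ Y)
    push_cast at h2
    have h3 : ((M : ℝ) + B) * u ≤ Y * u := mul_le_mul_of_nonneg_right h2 (by linarith)
    have h4 : (Y : ℝ) * u ≤ M * (Y * u) := le_mul_of_one_le_left (by positivity) hMr
    have h5 : 2 * x = M * (Y * u) := by rw [hx]; ring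
    linarith
  have hdiff : x / 4 ≤ ((g + M * H₁ : ℕ) : ℝ) - ((g + M * H₀ : ℕ) : ℝ) := by
    push_cast
    have h1 : (u * Y : ℝ) / 8 ≤ (H₁ : ℝ) - H₀ := by linarith
    have h2 : x / 4 = M * (u * Y / 8) := by rw [hx]; ring
    rw [h2]
    nlinarith
  have hp3 : ((g + M * H₀ : ℕ) : ℝ) + 1 / 4 * x ≤ ((g + M * H₁ : ℕ) : ℝ) := by linarith
  have hcg : g.Coprime M := by rw [hgs]; exact hcop _
  have hpai := hx₀ x hxge (g + M * H₀) (g + M * H₁) g hp1 hp2 hp3 hcg
  have hxpos : 0 < x := by positivity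
  have hx2 : (2 : ℝ) ≤ x := by rw [hx]; nlinarith [mul_le_mul hMr huY (by norm_num) (by linarith : (0:ℝ) ≤ M)]
  have hlogx : 0 < Real.log x := Real.log_pos (by linarith)
  have hφ : (0 : ℝ) < M.totient := by exact_mod_cast Nat.totient_pos.2 hM
  have hlogY : 0 < Real.log Y := Real.log_pos (by linarith)
  have hlog2 : Real.log x ≤ 2 * Real.log Y := by
    have h1 : x ^ 2 ≤ (Y : ℝ) ^ 4 := by
      have h2 : x ≤ M * u * Y := by rw [hx]; linarith [show 0 ≤ (M : ℝ) * u * Y by positivity]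
      have h3 : x ^ 2 ≤ (M * u * Y) ^ 2 := pow_le_pow_left₀ hxpos.le h2 2
      have h4 : ((M ^ 2 : ℕ) : ℝ) ≤ Y := by exact_mod_cast (by omega : M ^ 2 ≤ Y)
      push_cast at h4
      calc x ^ 2 ≤ (M * u * Y) ^ 2 := h3
        _ = (M : ℝ) ^ 2 * (u : ℝ) ^ 2 * (Y : ℝ) ^ 2 := by ring
        _ ≤ Y * Y * (Y : ℝ) ^ 2 := by gcongr
        _ = _ := by ring
    have h2 := Real.log_le_log (by positivity) h1
    rw [Real.log_pow, Real.log_pow] at h2
    push_cast at h2
    linarith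
  have hcnt : x / (8 * (M.totient * Real.log x)) ≤
      (((Ioc (g + M * H₀) (g + M * H₁)).filter (fun q => q.Prime ∧ q % M = g % M)).card : ℝ) := by
    have h1 := (abs_le.1 hpai).1
    have h2 : x / 4 / (M.totient * Real.log x) ≤
        (((g + M * H₁ : ℕ) : ℝ) - ((g + M * H₀ : ℕ) : ℝ)) / (M.totient * Real.log x) :=
      div_le_div_of_nonneg_right hdiff (by positivity)
    have h3 : x / (8 * (M.totient * Real.log x)) = 1 / 2 * (x / 4 / (M.totient * Real.log x)) := by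
      field_simp; ring
    rw [h3]
    linarith
  have hq₀r : (Y : ℝ) / (8 * B * u) ≤ q₀ := by
    have h1 : Y < (q₀ + 1) * (4 * B * u) := by
      rw [hq₀]
      have := Nat.lt_div_mul_add (a := Y) (b := 4 * B * u) (by positivity)
      calc Y < Y / (4 * B * u) * (4 * B * u) + 4 * B * u := this
        _ = _ := by ring
    have h2 : (Y : ℝ) < (q₀ + 1) * (4 * B * u) := by exact_mod_cast h1
    have h3 : (8 : ℝ) * B * u ≤ Y := by
      have h4 : ((64 * B ^ 2 : ℕ) : ℝ) ≤ Y := by exact_mod_cast (by omega : 64 * B ^ 2 ≤ Y)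
      push_cast at h4
      have h5 : ((8 : ℝ) * B * u) ^ 2 ≤ (Y : ℝ) ^ 2 := by
        calc ((8 : ℝ) * B * u) ^ 2 = (64 * (B : ℝ) ^ 2) * (u : ℝ) ^ 2 := by ring
          _ ≤ (Y : ℝ) * Y := by gcongr
          _ = (Y : ℝ) ^ 2 := by ring
      exact (pow_le_pow_iff_left₀ (by positivity) (by positivity) (by norm_num)).1 h5
    have h6 : (0 : ℝ) < B * u := by positivity
    rw [div_le_iff₀ (by positivity)]
    nlinarith
  have hfin : ρ M * (Y : ℝ) ^ 2 / (256 * B * Real.log Y) ≤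
      (Y : ℝ) / (8 * B * u) * (x / (8 * (M.totient * Real.log x))) := by
    rw [← rho_eq M hM]
    have e1 : (Y : ℝ) / (8 * B * u) * (x / (8 * (M.totient * Real.log x))) =
        (M : ℝ) / M.totient * (Y : ℝ) ^ 2 / (128 * B * Real.log x) := by
      rw [hx]; field_simp; ring
    rw [e1]
    apply div_le_div_of_nonneg_left (by positivity) (by positivity)
    nlinarith
  calc ρ M * (Y : ℝ) ^ 2 / (256 * B * Real.log Y) ≤
        (Y : ℝ) / (8 * B * u) * (x / (8 * (M.totient * Real.log x))) := hfin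
    _ ≤ (q₀ : ℝ) * (((Ioc (g + M * H₀) (g + M * H₁)).filter (fun q => q.Prime ∧ q % M = g % M)).card : ℝ) :=
        mul_le_mul hq₀r hcnt (by positivity) (by positivity)
    _ ≤ (q₀ : ℝ) * (((Ioc H₀ H₁).filter (fun h => (g + M * h).Prime)).card : ℝ) := by
        apply mul_le_mul_of_nonneg_left _ (Nat.cast_nonneg _)
        exact_mod_cast hcount
    _ ≤ _ := by exact_mod_cast hreps

end Pool.Agent.K4H3.FB
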