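import Pool.Agent.Helper112.PairSieve
import Pool.Agent.Y185.DK.Avg
import Pool.Agent.K4H3.FB.B4

/-! The second moment: upper bound for the number of starting pairs in a class with two prime terms. -/

set_option autoImplicit false

namespace Pool.Agent.K4H3.FB
open Finset Filter
open Pool.Agent.Y851.DK (sg sgn P_AVG)

variable {A B : ℕ}

lemma rho_mono {a b : ℕ} (h : a.primeFactors ⊆ b.primeFactors) : ρ a ≤ ρ b := by
  classical
  unfold ρ
  rw [← prod_sdiff h]
  have h1 : 1 ≤ ∏ p ∈ b.primeFactors \ a.primeFactors, (1 - 1 / (p : ℝ))⁻¹ := by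
    have : ∏ _p ∈ b.primeFactors \ a.primeFactors, (1 : ℝ) ≤ ∏ p ∈ b.primeFactors \ a.primeFactors, (1 - 1 / (p : ℝ))⁻¹ :=
      Finset.prod_le_prod (fun _ _ => by norm_num) fun p hp => fac_one_le (Nat.prime_of_mem_primeFactors (mem_sdiff.1 hp).1)
    simpa using this
  have h2 : 0 ≤ ∏ p ∈ a.primeFactors, (1 - 1 / (p : ℝ))⁻¹ :=
    prod_nonneg fun p hp => by
      have := fac_pos (Nat.prime_of_mem_primeFactors hp)
      positivity
  nlinarith

lemma rho_one : ρ 1 = 1 := by simp [ρ]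

lemma rho_one_le (m : ℕ) : 1 ≤ ρ m := by
  rw [← rho_one]
  exact rho_mono (by simp)

lemma rho_mul_le {a b : ℕ} (ha : a ≠ 0) (hb : b ≠ 0) : ρ (a * b) ≤ ρ a * ρ b := by
  classical
  have h1 : ρ (a * b) * ∏ p ∈ a.primeFactors ∩ b.primeFactors, (1 - 1 / (p : ℝ))⁻¹ = ρ a * ρ b := by
    unfold ρ
    rw [Nat.primeFactors_mul ha hb, prod_union_inter]
  have h2 : 1 ≤ ∏ p ∈ a.primeFactors ∩ b.primeFactors, (1 - 1 / (p : ℝ))⁻¹ := by
    have : ∏ _p ∈ a.primeFactors ∩ b.primeFactors, (1 : ℝ) ≤ ∏ p ∈ a.primeFactors ∩ b.primeFactors, (1 - 1 / (p : ℝ))⁻¹ :=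
      Finset.prod_le_prod (fun _ _ => by norm_num) fun p hp => fac_one_le (Nat.prime_of_mem_primeFactors (mem_inter.1 hp).1)
    simpa using this
  have h3 := rho_one_le (a * b)
  nlinarith

lemma rho_pow (a n : ℕ) : ρ (a ^ n) ≤ ρ a := by
  rcases Nat.eq_zero_or_pos n with h | h
  · subst h
    rw [pow_zero, rho_one]
    exact rho_one_le a
  · exact rho_mono (by rw [Nat.primeFactors_pow _ (by omega)])

lemma fac_le {p : ℕ} (hp : p.Prime) : (1 - 1 / (p : ℝ))⁻¹ ≤ 1 + 2 / p := by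
  have h2 : (2 : ℝ) ≤ p := by exact_mod_cast hp.two_le
  have h0 := fac_pos hp
  rw [inv_le_comm₀ h0 (by positivity), ← one_div, div_le_iff₀ (by positivity)]
  have h1 : 1 / (p : ℝ) ≤ 1 / 2 := one_div_le_one_div_of_le (by norm_num) h2
  have h3 : 2 / (p : ℝ) = 2 * (1 / p) := by ring
  rw [h3]
  have h4 : 0 ≤ 1 / (p : ℝ) := by positivity
  nlinarith

lemma rho_exp (a : ℕ) : ρ a ≤ Real.exp (2 * sg a) := by
  unfold ρ sg
  rw [mul_sum, Real.exp_sum]
  apply Finset.prod_le_prod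
  · intro p hp
    have := fac_pos (Nat.prime_of_mem_primeFactors hp)
    positivity
  · intro p hp
    refine (fac_le (Nat.prime_of_mem_primeFactors hp)).trans ?_
    have := Real.add_one_le_exp (2 * (1 / (p : ℝ)))
    calc 1 + 2 / (p : ℝ) = 2 * (1 / (p : ℝ)) + 1 := by ring
      _ ≤ _ := this

lemma rho6 (m : ℕ) : ρ m ^ 6 ≤ ∏ p ∈ m.primeFactors, (1 + ((728 : ℕ) : ℝ) / p) := by
  unfold ρ
  rw [← prod_pow]
  apply Finset.prod_le_prod
  · intro p hp
    have := fac_pos (Nat.prime_of_mem_primeFactors hp)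
    positivity
  · intro p hp
    have hpp := Nat.prime_of_mem_primeFactors hp
    have h0 := fac_pos hpp
    have h1 : ((1 - 1 / (p : ℝ))⁻¹) ^ 6 ≤ (1 + 2 / (p : ℝ)) ^ 6 :=
      pow_le_pow_left₀ (by positivity) (fac_le hpp) 6
    refine h1.trans ?_
    have h2 : (2 : ℝ) ≤ p := by exact_mod_cast hpp.two_le
    obtain ⟨y, hy⟩ : ∃ y : ℝ, y = 1 / p := ⟨_, rfl⟩
    have hy0 : 0 ≤ y := by rw [hy]; positivity
    have hy1 : y ≤ 1 := by
      rw [hy]
      rw [div_le_one (by linarith)]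
      linarith
    have e1 : 2 / (p : ℝ) = 2 * y := by rw [hy]; ring
    have e2 : ((728 : ℕ) : ℝ) / p = 728 * y := by rw [hy]; push_cast; ring
    rw [e1, e2]
    have hy2 : y ^ 2 ≤ y := by nlinarith
    have hy3 : y ^ 3 ≤ y := by nlinarith [mul_nonneg hy0 (sub_nonneg.2 hy2), hy2]
    have hy4 : y ^ 4 ≤ y := by nlinarith [mul_nonneg hy0 (sub_nonneg.2 hy3), hy2]
    have hy5 : y ^ 5 ≤ y := by nlinarith [mul_nonneg hy0 (sub_nonneg.2 hy4), hy2]
    have hy6 : y ^ 6 ≤ y := by nlinarith [mul_nonneg hy0 (sub_nonneg.2 hy5), hy2]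
    nlinarith

/-- at most one prime value if the coefficients are not coprime -/
lemma one_value (a b Y : ℕ) (ha : 1 ≤ a) (h : ¬ a.Coprime b) (P : ℕ → Prop) [DecidablePred P] :
    ((range Y).filter (fun t => (a * t + b).Prime ∧ P t)).card ≤ 1 := by
  rw [card_le_one]
  intro t ht t' ht'
  rw [mem_filter] at ht ht'
  have key : ∀ t, (a * t + b).Prime → a * t + b = Nat.gcd a b := by
    intro t hp
    have h1 : Nat.gcd a b ∣ a * t + b :=
      dvd_add (Dvd.dvd.mul_right (Nat.gcd_dvd_left a b) t) (Nat.gcd_dvd_right a b)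
    rcases (Nat.dvd_prime hp).1 h1 with h2 | h2
    · exact absurd h2 h
    · exact h2.symm
  have e1 := key t ht.2.1
  have e2 := key t' ht'.2.1
  have : a * t = a * t' := by omega
  exact Nat.eq_of_mul_eq_mul_left ha this

lemma det_natAbs (m k : ℕ) :
    ((U A B (m + 1) : ℤ) * (B * U A B (m + k)) - U A B (m + k + 1) * (B * U A B m)).natAbs =
      B ^ (m + 1) * U A B k := by
  have h := U_det (A := A) (B := B) m k
  have e : (U A B (m + 1) : ℤ) * (B * U A B (m + k)) - U A B (m + k + 1) * (B * U A B m) =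
      B * ((-(B : ℤ)) ^ m * U A B k) := by
    rw [← h]; ring
  rw [e, Int.natAbs_mul, Int.natAbs_mul, Int.natAbs_pow, Int.natAbs_neg]
  simp only [Int.natAbs_natCast]
  ring

/-- **second moment** -/
theorem second (hA : 1 ≤ A) (hB : 1 ≤ B) : ∃ C : ℝ, 0 < C ∧ ∀ M b₀ : ℕ, 1 ≤ M → ∃ Y₀ : ℕ, 2 ≤ Y₀ ∧
    ∀ Y : ℕ, Y₀ ≤ Y → ∀ m k : ℕ, 1 ≤ m → 1 ≤ k →
      (((range Y ×ˢ range Y).filter
          (fun z => (sq A B (1 + M * z.1) (b₀ + M * z.2) (m + 1)).Prime ∧
            (sq A B (1 + M * z.1) (b₀ + M * z.2) (m + k + 1)).Prime)).card : ℝ) ≤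
        2 * Y + C * ρ M ^ 2 * (ρ (U A B (m + 1)) * ρ (U A B (m + k + 1)) * ρ (U A B k)) ^ 2 *
          ((Y : ℝ) ^ 2 / (Real.log Y) ^ 2) := by
  classical
  obtain ⟨C₂, hC₂, hsv⟩ := Pool.Agent.Helper112.E456.sieve_two
  obtain ⟨C₃, hC₃, hav⟩ := Pool.Agent.Y185.DK.AV.t_AVG 4 1 (by norm_num) (by norm_num)
  obtain ⟨X₁, hX₁⟩ := eventually_atTop.1 hav
  refine ⟨C₂ * ρ B ^ 2 * C₃, ?_, fun M b₀ hM => ?_⟩
  · have := rho_one_le B
    positivity
  refine ⟨2 + ⌈X₁⌉₊ + M, by omega, fun Y hY m k hm hk => ?_⟩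
  set u₁ := U A B (m + 1) with hu₁
  set v₁ := B * U A B m with hv₁
  set u₂ := U A B (m + k + 1) with hu₂
  set v₂ := B * U A B (m + k) with hv₂
  have hu₁1 : 1 ≤ u₁ := U_pos hA m
  have hu₂1 : 1 ≤ u₂ := U_pos hA (m + k)
  have hUk1 : 1 ≤ U A B k := U_pos' hA hk
  have hY2 : 2 ≤ Y := by omega
  have hYr : (2 : ℝ) ≤ Y := by exact_mod_cast hY2
  have hlogY : 0 < Real.log Y := Real.log_pos (by linarith)
  have hform : ∀ s t j : ℕ, sq A B (1 + M * s) (b₀ + M * t) (j + 1) =
      (M * U A B (j + 1)) * t + (b₀ * U A B (j + 1) + (1 + M * s) * (B * U A B j)) := by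
    intro s t j
    rw [sq_eq]
    ring
  -- one row
  have hrow : ∀ s ∈ range Y, (((range Y).filter
      (fun t => (sq A B (1 + M * s) (b₀ + M * t) (m + 1)).Prime ∧
        (sq A B (1 + M * s) (b₀ + M * t) (m + k + 1)).Prime)).card : ℝ) ≤
      2 + C₂ * (ρ B * ρ M * (ρ u₁ * ρ u₂ * ρ (U A B k))) ^ 2 * (ρ (1 + M * s)) ^ 2 * (Y / (Real.log Y) ^ 2) := by
    intro s _
    simp only [hform]
    set a := 1 + M * s with ha
    set b₁ := b₀ * U A B (m + 1) + a * (B * U A B m) with hb₁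
    set b₂ := b₀ * U A B (m + k + 1) + a * (B * U A B (m + k)) with hb₂
    have hnn : 0 ≤ C₂ * (ρ B * ρ M * (ρ u₁ * ρ u₂ * ρ (U A B k))) ^ 2 * (ρ a) ^ 2 * (Y / (Real.log Y) ^ 2) := by
      positivity
    by_cases hc1 : (M * u₁).Coprime b₁
    · by_cases hc2 : (M * u₂).Coprime b₂
      · have hdet : ((((M * u₁) * b₂ : ℕ) : ℤ) - (((M * u₂) * b₁ : ℕ) : ℤ)).natAbs = M * a * (B ^ (m + 1) * U A B k) := by
          rw [← det_natAbs m k]
          have e : ((((M * u₁) * b₂ : ℕ) : ℤ) - (((M * u₂) * b₁ : ℕ) : ℤ)) =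
              ((M * a : ℕ) : ℤ) * ((U A B (m + 1) : ℤ) * (B * U A B (m + k)) - U A B (m + k + 1) * (B * U A B m)) := by
            rw [hb₁, hb₂]
            push_cast
            ring
          rw [e, Int.natAbs_mul, Int.natAbs_natCast]
        have ha0 : a ≠ 0 := by omega
        have hne : (M * u₁) * b₂ ≠ (M * u₂) * b₁ := by
          intro h
          rw [h, sub_self, Int.natAbs_zero] at hdet
          have : 0 < M * a * (B ^ (m + 1) * U A B k) := by positivity
          omega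
        have h1 := hsv (M * u₁) b₁ (M * u₂) b₂ Y (by positivity) (by positivity) hc1 hc2 hne hY2
        rw [hdet] at h1
        set D := (M * u₁) * (M * u₂) * (M * a * (B ^ (m + 1) * U A B k)) with hD
        have hD1 : 1 ≤ D := by
          have : 0 < D := by positivity
          exact this
        rw [rho_eq D hD1] at h1
        have hrD : ρ D ≤ ρ B * ρ M * (ρ u₁ * ρ u₂ * ρ (U A B k)) * ρ a := by
          have e : D = M ^ 3 * (B ^ (m + 1) * (u₁ * (u₂ * (U A B k * a)))) := by rw [hD]; ring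
          rw [e]
          have g1 := rho_mul_le (a := M ^ 3) (b := B ^ (m + 1) * (u₁ * (u₂ * (U A B k * a)))) (by positivity) (by positivity)
          have g2 := rho_mul_le (a := B ^ (m + 1)) (b := (u₁ * (u₂ * (U A B k * a)))) (by positivity) (by positivity)
          have g3 := rho_mul_le (a := u₁) (b := (u₂ * (U A B k * a))) (by positivity) (by positivity)
          have g4 := rho_mul_le (a := u₂) (b := (U A B k * a)) (by positivity) (by positivity)
          have g5 := rho_mul_le (a := U A B k) (b := a) (by positivity) (by positivity)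
          have p1 := rho_one_le (M ^ 3)
          have p2 := rho_one_le (B ^ (m + 1))
          have p3 := rho_one_le u₁
          have p4 := rho_one_le u₂
          have p5 := rho_one_le (U A B k)
          have p6 := rho_one_le a
          have q1 := rho_pow M 3
          have q2 := rho_pow B (m + 1)
          calc ρ (M ^ 3 * (B ^ (m + 1) * (u₁ * (u₂ * (U A B k * a))))) ≤
                ρ (M ^ 3) * (ρ (B ^ (m + 1)) * (ρ u₁ * (ρ u₂ * (ρ (U A B k) * ρ a)))) := by
                refine g1.trans ?_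
                apply mul_le_mul_of_nonneg_left _ (by linarith)
                refine g2.trans ?_
                apply mul_le_mul_of_nonneg_left _ (by linarith)
                refine g3.trans ?_
                apply mul_le_mul_of_nonneg_left _ (by linarith)
                refine g4.trans ?_
                apply mul_le_mul_of_nonneg_left _ (by linarith)
                exact g5
            _ ≤ ρ M * (ρ B * (ρ u₁ * (ρ u₂ * (ρ (U A B k) * ρ a)))) := by
                have hX : 0 ≤ ρ u₁ * (ρ u₂ * (ρ (U A B k) * ρ a)) := by positivity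
                have pM := rho_one_le M
                exact mul_le_mul q1 (mul_le_mul_of_nonneg_right q2 hX)
                  (mul_nonneg (by linarith) hX) (by linarith)
            _ = _ := by ring
        have hsub : ((range Y).filter (fun t => (M * u₁ * t + b₁).Prime ∧ (M * u₂ * t + b₂).Prime)) ⊆
            insert 0 ((Icc 1 Y).filter (fun t => (M * u₁ * t + b₁).Prime ∧ (M * u₂ * t + b₂).Prime)) := by
          intro t ht
          rw [mem_filter, mem_range] at ht
          rw [mem_insert, mem_filter, mem_Icc]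
          rcases Nat.eq_zero_or_pos t with h | h
          · left; exact h
          · right; exact ⟨⟨h, by omega⟩, ht.2⟩
        have hcard : (((range Y).filter (fun t => (M * u₁ * t + b₁).Prime ∧ (M * u₂ * t + b₂).Prime)).card : ℝ) ≤
            1 + (((Icc 1 Y).filter (fun t => (M * u₁ * t + b₁).Prime ∧ (M * u₂ * t + b₂).Prime)).card : ℝ) := by
          have := (card_le_card hsub).trans (card_insert_le _ _)
          have h2 : ((range Y).filter (fun t => (M * u₁ * t + b₁).Prime ∧ (M * u₂ * t + b₂).Prime)).card ≤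
            1 + ((Icc 1 Y).filter (fun t => (M * u₁ * t + b₁).Prime ∧ (M * u₂ * t + b₂).Prime)).card := by omega
          exact_mod_cast h2
        have hsq : C₂ * ρ D ^ 2 * Y / (Real.log Y) ^ 2 ≤
            C₂ * (ρ B * ρ M * (ρ u₁ * ρ u₂ * ρ (U A B k))) ^ 2 * (ρ a) ^ 2 * (Y / (Real.log Y) ^ 2) := by
          have h3 : ρ D ^ 2 ≤ (ρ B * ρ M * (ρ u₁ * ρ u₂ * ρ (U A B k)) * ρ a) ^ 2 :=
            pow_le_pow_left₀ (by have := rho_one_le D; linarith) hrD 2
          rw [mul_pow] at h3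
          calc C₂ * ρ D ^ 2 * Y / (Real.log Y) ^ 2 = (C₂ * (Y / (Real.log Y) ^ 2)) * ρ D ^ 2 := by ring
            _ ≤ (C₂ * (Y / (Real.log Y) ^ 2)) * ((ρ B * ρ M * (ρ u₁ * ρ u₂ * ρ (U A B k))) ^ 2 * ρ a ^ 2) :=
                mul_le_mul_of_nonneg_left h3 (by positivity)
            _ = _ := by ring
        linarith
      · have h1 := one_value (M * u₂) b₂ Y (Nat.mul_pos hM hu₂1) hc2 (fun t => (M * u₁ * t + b₁).Prime)
        have h2 : ((range Y).filter (fun t => (M * U A B (m + 1) * t + b₁).Prime ∧ (M * U A B (m + k + 1) * t + b₂).Prime)).card ≤ 1 := by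
          refine le_trans (card_le_card ?_) h1
          intro t ht
          rw [mem_filter] at ht ⊢
          exact ⟨ht.1, ht.2.2, ht.2.1⟩
        have h3 : (((range Y).filter (fun t => (M * U A B (m + 1) * t + b₁).Prime ∧ (M * U A B (m + k + 1) * t + b₂).Prime)).card : ℝ) ≤ 1 := by
          exact_mod_cast h2
        linarith
    · have h1 := one_value (M * u₁) b₁ Y (Nat.mul_pos hM hu₁1) hc1 (fun t => (M * u₂ * t + b₂).Prime)
      have h3 : (((range Y).filter (fun t => (M * U A B (m + 1) * t + b₁).Prime ∧ (M * U A B (m + k + 1) * t + b₂).Prime)).card : ℝ) ≤ 1 := by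
        exact_mod_cast h1
      linarith
  -- the average over s
  have havg : ∑ s ∈ range Y, (ρ (1 + M * s)) ^ 2 ≤ C₃ * Y := by
    have hXY : X₁ ≤ (Y : ℝ) := by
      have h1 : X₁ ≤ ⌈X₁⌉₊ := Nat.le_ceil _
      have h2 : ((⌈X₁⌉₊ : ℕ) : ℝ) ≤ Y := by exact_mod_cast (by omega : ⌈X₁⌉₊ ≤ Y)
      linarith
    have hMY : (M : ℝ) ≤ Y := by exact_mod_cast (by omega : M ≤ Y)
    have hM0 : (1 : ℝ) ≤ M := by exact_mod_cast hM
    have h1 := hX₁ Y hXY Y (by simp) le_rfl M (M - 1) hM (by nlinarith)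
      (by
        have : ((M - 1 : ℕ) : ℝ) ≤ M := by exact_mod_cast (by omega : M - 1 ≤ M)
        nlinarith)
    refine le_trans ?_ h1
    have e : ∑ s ∈ range Y, (ρ (1 + M * s)) ^ 2 = ∑ x ∈ Icc 1 Y, (ρ (1 + M * (x - 1))) ^ 2 := by
      rw [range_eq_Ico, ← Finset.Ico_add_one_right_eq_Icc, Finset.sum_Ico_eq_sum_range, Finset.sum_Ico_eq_sum_range]
      simp
    rw [e]
    apply sum_le_sum
    intro x hx
    rw [mem_Icc] at hx
    have e2 : ((M : ℤ) * (x : ℤ) - ((M - 1 : ℕ) : ℤ)).natAbs = 1 + M * (x - 1) := by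
      have : ((M : ℤ) * (x : ℤ) - ((M - 1 : ℕ) : ℤ)) = ((1 + M * (x - 1) : ℕ) : ℤ) := by
        rw [Nat.cast_sub hM]
        push_cast [Nat.cast_sub hx.1]
        ring
      rw [this, Int.natAbs_natCast]
    rw [e2]
    have e3 : sgn M (1 + M * (x - 1)) = sg (1 + M * (x - 1)) := by
      unfold sgn sg
      congr 1
      apply filter_true_of_mem
      intro p hp hpM
      have hpp := Nat.prime_of_mem_primeFactors hp
      have h2 := Nat.dvd_of_mem_primeFactors hp
      have h3 : p ∣ 1 := (Nat.dvd_add_left (Dvd.dvd.mul_right hpM _)).1 h2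
      exact hpp.one_lt.ne' (Nat.dvd_one.1 h3)
    rw [e3]
    have h2 := rho_exp (1 + M * (x - 1))
    calc ρ (1 + M * (x - 1)) ^ 2 ≤ (Real.exp (2 * sg (1 + M * (x - 1)))) ^ 2 :=
          pow_le_pow_left₀ (by have := rho_one_le (1 + M * (x - 1)); linarith) h2 2
      _ = _ := by rw [← Real.exp_nat_mul]; congr 1; push_cast; ring
  -- the sum
  have hsum : (((range Y ×ˢ range Y).filter
          (fun z => (sq A B (1 + M * z.1) (b₀ + M * z.2) (m + 1)).Prime ∧
            (sq A B (1 + M * z.1) (b₀ + M * z.2) (m + k + 1)).Prime)).card : ℝ) =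
      ∑ s ∈ range Y, (((range Y).filter
      (fun t => (sq A B (1 + M * s) (b₀ + M * t) (m + 1)).Prime ∧
        (sq A B (1 + M * s) (b₀ + M * t) (m + k + 1)).Prime)).card : ℝ) := by
    rw [← Nat.cast_sum]
    congr 1
    simp only [card_filter]
    rw [sum_product]
  rw [hsum]
  refine (sum_le_sum hrow).trans ?_
  rw [sum_add_distrib, sum_const, card_range, nsmul_eq_mul]
  have e4 : ∑ s ∈ range Y, C₂ * (ρ B * ρ M * (ρ u₁ * ρ u₂ * ρ (U A B k))) ^ 2 * (ρ (1 + M * s)) ^ 2 * (Y / (Real.log Y) ^ 2) =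
      C₂ * (ρ B * ρ M * (ρ u₁ * ρ u₂ * ρ (U A B k))) ^ 2 * (Y / (Real.log Y) ^ 2) * ∑ s ∈ range Y, (ρ (1 + M * s)) ^ 2 := by
    rw [mul_sum]
    apply sum_congr rfl
    intro s _
    ring
  rw [e4]
  have e5 : C₂ * (ρ B * ρ M * (ρ u₁ * ρ u₂ * ρ (U A B k))) ^ 2 * (Y / (Real.log Y) ^ 2) * ∑ s ∈ range Y, (ρ (1 + M * s)) ^ 2 ≤
      C₂ * (ρ B * ρ M * (ρ u₁ * ρ u₂ * ρ (U A B k))) ^ 2 * (Y / (Real.log Y) ^ 2) * (C₃ * Y) :=
    mul_le_mul_of_nonneg_left havg (by positivity)
  calc _ ≤ (Y : ℝ) * 2 + C₂ * (ρ B * ρ M * (ρ u₁ * ρ u₂ * ρ (U A B k))) ^ 2 * (Y / (Real.log Y) ^ 2) * (C₃ * Y) := by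
        linarith
    _ = _ := by ring

end Pool.Agent.K4H3.FB
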