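import Pool.Agent.K4H3.FB.B2
import Pool.Agent.K4H3.FB.B5

/-! Positive proportion of the starting pairs. -/

set_option autoImplicit false

namespace Pool.Agent.K4H3.FB
open Finset

variable {A B : ℕ}

/-- Cauchy-Schwarz -/
lemma pz {α : Type*} (Z : Finset α) (c : α → ℕ) (k : ℕ) (hk : (k : ℝ) * Z.card ≤ ∑ z ∈ Z, (c z : ℝ)) :
    ((∑ z ∈ Z, (c z : ℝ)) - k * Z.card) ^ 2 ≤ ((Z.filter (fun z => k ≤ c z)).card : ℝ) * ∑ z ∈ Z, (c z : ℝ) ^ 2 := by
  classical
  have h1 : ∑ z ∈ Z, (c z : ℝ) ≤ k * Z.card + ∑ z ∈ Z.filter (fun z => k ≤ c z), (c z : ℝ) := by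
    rw [← sum_filter_add_sum_filter_not Z (fun z => k ≤ c z)]
    have h2 : ∑ z ∈ Z.filter (fun z => ¬ k ≤ c z), (c z : ℝ) ≤ k * Z.card := by
      calc ∑ z ∈ Z.filter (fun z => ¬ k ≤ c z), (c z : ℝ) ≤ ∑ _z ∈ Z.filter (fun z => ¬ k ≤ c z), (k : ℝ) := by
            apply sum_le_sum
            intro z hz
            rw [mem_filter] at hz
            exact_mod_cast (by omega : c z ≤ k)
        _ = (Z.filter (fun z => ¬ k ≤ c z)).card * k := by rw [sum_const, nsmul_eq_mul]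
        _ ≤ Z.card * k := by
            apply mul_le_mul_of_nonneg_right _ (Nat.cast_nonneg _)
            exact_mod_cast card_filter_le _ _
        _ = _ := by ring
    linarith
  have h2 : ((∑ z ∈ Z, (c z : ℝ)) - k * Z.card) ^ 2 ≤ (∑ z ∈ Z.filter (fun z => k ≤ c z), (c z : ℝ)) ^ 2 :=
    pow_le_pow_left₀ (by linarith) (by linarith) 2
  refine h2.trans ?_
  have h3 := sq_sum_le_card_mul_sum_sq (s := Z.filter (fun z => k ≤ c z)) (f := fun z => (c z : ℝ))
  refine h3.trans ?_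
  apply mul_le_mul_of_nonneg_left _ (Nat.cast_nonneg _)
  exact sum_le_sum_of_subset_of_nonneg (filter_subset _ _) fun _ _ _ => by positivity

lemma three_le (x y z : ℝ) (hx : 0 ≤ x) (hy : 0 ≤ y) (hz : 0 ≤ z) : (x * y * z) ^ 2 ≤ x ^ 6 + y ^ 6 + z ^ 6 := by
  -- with X = x², ...: X Y Z ≤ X³ + Y³ + Z³
  have h : ∀ X Y Z : ℝ, 0 ≤ X → 0 ≤ Y → 0 ≤ Z → X * Y * Z ≤ X ^ 3 + Y ^ 3 + Z ^ 3 := by
    intro X Y Z hX hY hZ
    rcases le_total X Y with h1 | h1
    · rcases le_total Y Z with h2 | h2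
      · have : X * Y * Z ≤ Z * Z * Z := by gcongr; exact h1.trans h2
        nlinarith [pow_nonneg hX 3, pow_nonneg hY 3]
      · have : X * Y * Z ≤ Y * Y * Y := by gcongr
        nlinarith [pow_nonneg hX 3, pow_nonneg hZ 3]
    · rcases le_total X Z with h2 | h2
      · have : X * Y * Z ≤ Z * Z * Z := by gcongr; exact h1.trans h2
        nlinarith [pow_nonneg hX 3, pow_nonneg hY 3]
      · have : X * Y * Z ≤ X * X * X := by gcongr
        nlinarith [pow_nonneg hY 3, pow_nonneg hZ 3]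
  have := h (x ^ 2) (y ^ 2) (z ^ 2) (by positivity) (by positivity) (by positivity)
  calc (x * y * z) ^ 2 = x ^ 2 * y ^ 2 * z ^ 2 := by ring
    _ ≤ _ := this
    _ = _ := by ring

/-- sums of a nonnegative function of the distance -/
lemma dist_sum (r : ℕ → ℝ) (hr : ∀ l, 0 ≤ r l) (N i : ℕ) (hi : i ∈ Icc 1 N) :
    ∑ j ∈ (Icc 1 N).filter (fun j => j ≠ i), r ((i - j) + (j - i)) ≤ 2 * ∑ l ∈ Icc 1 N, r l := by
  classical
  rw [mem_Icc] at hi
  rw [← sum_filter_add_sum_filter_not ((Icc 1 N).filter (fun j => j ≠ i)) (fun j => j < i)]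
  have h1 : ∑ j ∈ ((Icc 1 N).filter (fun j => j ≠ i)).filter (fun j => j < i), r ((i - j) + (j - i)) ≤ ∑ l ∈ Icc 1 N, r l := by
    rw [← sum_image (f := r) (g := fun j => (i - j) + (j - i))]
    · apply sum_le_sum_of_subset_of_nonneg
      · intro l hl
        simp only [mem_image, mem_filter, mem_Icc] at hl
        obtain ⟨j, hj, rfl⟩ := hl
        rw [mem_Icc]
        omega
      · intro l _ _; exact hr l
    · intro a ha b hb hab
      simp only [coe_filter, mem_filter, mem_Icc, Set.mem_setOf_eq] at ha hb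
      simp only at hab
      omega
  have h2 : ∑ j ∈ ((Icc 1 N).filter (fun j => j ≠ i)).filter (fun j => ¬ j < i), r ((i - j) + (j - i)) ≤ ∑ l ∈ Icc 1 N, r l := by
    rw [← sum_image (f := r) (g := fun j => (i - j) + (j - i))]
    · apply sum_le_sum_of_subset_of_nonneg
      · intro l hl
        simp only [mem_image, mem_filter, mem_Icc] at hl
        obtain ⟨j, hj, rfl⟩ := hl
        rw [mem_Icc]
        omega
      · intro l _ _; exact hr l
    · intro a ha b hb hab
      simp only [coe_filter, mem_filter, mem_Icc, Set.mem_setOf_eq] at ha hb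
      simp only at hab
      omega
  linarith

/-- the sum of the singular factors -/
lemma sum_R (r : ℕ → ℝ) (hr : ∀ l, 0 ≤ r l) (CR : ℝ) (hCR : ∀ n : ℕ, ∑ s ∈ Icc 1 n, r s ≤ CR * n) (N : ℕ) (hN : 1 ≤ N) :
    ∑ i ∈ Icc 1 N, ∑ j ∈ (Icc 1 N).filter (fun j => j ≠ i), (r (i + 1) + r (j + 1) + r ((i - j) + (j - i))) ≤
      8 * CR * (N : ℝ) ^ 2 := by
  classical
  have hN1 : (1 : ℝ) ≤ N := by exact_mod_cast hN
  have hshift : ∑ j ∈ Icc 1 N, r (j + 1) ≤ CR * (N + 1) := by
    have h1 : ∑ j ∈ Icc 1 N, r (j + 1) ≤ ∑ l ∈ Icc 1 (N + 1), r l := by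
      rw [← sum_image (f := r) (g := fun j => j + 1)]
      · apply sum_le_sum_of_subset_of_nonneg
        · intro l hl
          simp only [mem_image, mem_Icc] at hl
          obtain ⟨j, hj, rfl⟩ := hl
          rw [mem_Icc]
          omega
        · intro l _ _; exact hr l
      · intro a _ b _ hab
        simp only at hab
        omega
    have h2 := hCR (N + 1)
    push_cast at h2
    linarith
  have hCR0 : 0 ≤ CR := by
    have := hCR 1
    simp only [Icc_self, sum_singleton, Nat.cast_one, mul_one] at this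
    exact (hr 1).trans this
  have hrow : ∀ i ∈ Icc 1 N, ∑ j ∈ (Icc 1 N).filter (fun j => j ≠ i), (r (i + 1) + r (j + 1) + r ((i - j) + (j - i))) ≤
      N * r (i + 1) + CR * (N + 1) + 2 * (CR * N) := by
    intro i hi
    rw [sum_add_distrib, sum_add_distrib]
    have h1 : ∑ _j ∈ (Icc 1 N).filter (fun j => j ≠ i), r (i + 1) ≤ N * r (i + 1) := by
      rw [sum_const, nsmul_eq_mul]
      apply mul_le_mul_of_nonneg_right _ (hr _)
      have : ((Icc 1 N).filter (fun j => j ≠ i)).card ≤ N := by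
        refine (card_filter_le _ _).trans ?_
        rw [Nat.card_Icc]; omega
      exact_mod_cast this
    have h2 : ∑ j ∈ (Icc 1 N).filter (fun j => j ≠ i), r (j + 1) ≤ CR * (N + 1) :=
      (sum_le_sum_of_subset_of_nonneg (filter_subset _ _) fun _ _ _ => hr _).trans hshift
    have h3 := dist_sum r hr N i hi
    have h4 := hCR N
    linarith
  refine (sum_le_sum hrow).trans ?_
  rw [sum_add_distrib, sum_add_distrib, ← mul_sum, sum_const, sum_const, Nat.card_Icc, nsmul_eq_mul, nsmul_eq_mul]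
  have e : ((N + 1 - 1 : ℕ) : ℝ) = N := by norm_num
  rw [e]
  have h5 : (N : ℝ) * ∑ i ∈ Icc 1 N, r (i + 1) ≤ N * (CR * (N + 1)) :=
    mul_le_mul_of_nonneg_left hshift (by linarith)
  nlinarith [mul_nonneg hCR0 (by linarith : (0 : ℝ) ≤ N), mul_nonneg hCR0 (mul_nonneg (by linarith : (0 : ℝ) ≤ N) (by linarith : (0 : ℝ) ≤ N - 1))]

/-- double sum identity -/
lemma sq_card {α : Type*} (Z : Finset α) (N : ℕ) (P : ℕ → α → Prop) [∀ n, DecidablePred (P n)] :
    ∑ z ∈ Z, ((((Icc 1 N).filter (fun n => P n z)).card : ℕ) : ℝ) ^ 2 =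
      ∑ i ∈ Icc 1 N, ∑ j ∈ Icc 1 N, ((Z.filter (fun z => P i z ∧ P j z)).card : ℝ) := by
  classical
  have h1 : ∀ z, ((((Icc 1 N).filter (fun n => P n z)).card : ℕ) : ℝ) ^ 2 =
      ∑ i ∈ Icc 1 N, ∑ j ∈ Icc 1 N, (if P i z ∧ P j z then (1 : ℝ) else 0) := by
    intro z
    rw [card_filter]
    push_cast
    rw [pow_two, sum_mul_sum]
    apply sum_congr rfl
    intro i _
    apply sum_congr rfl
    intro j _
    by_cases hi : P i z <;> by_cases hj : P j z <;> simp [hi, hj]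
  rw [sum_congr rfl fun z _ => h1 z, sum_comm]
  apply sum_congr rfl
  intro i _
  rw [sum_comm]
  apply sum_congr rfl
  intro j _
  rw [card_filter]
  push_cast
  rfl

lemma sum_card {α : Type*} (Z : Finset α) (N : ℕ) (P : ℕ → α → Prop) [∀ n, DecidablePred (P n)] :
    ∑ z ∈ Z, ((((Icc 1 N).filter (fun n => P n z)).card : ℕ) : ℝ) =
      ∑ i ∈ Icc 1 N, ((Z.filter (fun z => P i z)).card : ℝ) := by
  classical
  simp only [card_filter]
  push_cast
  rw [sum_comm]

end Pool.Agent.K4H3.FB
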