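import Pool.Agent.K4H3.FB.B6

/-! Positive proportion of the starting pairs: conclusion. -/

set_option autoImplicit false

namespace Pool.Agent.K4H3.FB
open Finset Filter

variable {A B : ℕ}

/-- the second moment from bounds for the pairs -/
lemma sec_sum {α : Type*} (Z : Finset α) (N : ℕ) (hN : 1 ≤ N) (P : ℕ → α → Prop) [∀ n, DecidablePred (P n)]
    (r : ℕ → ℝ) (hr : ∀ l, 0 ≤ r l) (CR : ℝ) (hCR : ∀ n : ℕ, ∑ s ∈ Icc 1 n, r s ≤ CR * n) (V W : ℝ) (hV : 0 ≤ V)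
    (hW : 0 ≤ W)
    (hoff : ∀ i ∈ Icc 1 N, ∀ j ∈ (Icc 1 N).filter (fun j => j ≠ i), ((Z.filter (fun z => P i z ∧ P j z)).card : ℝ) ≤
      V + W * (r (i + 1) + r (j + 1) + r ((i - j) + (j - i)))) :
    ∑ z ∈ Z, ((((Icc 1 N).filter (fun n => P n z)).card : ℕ) : ℝ) ^ 2 ≤
      ∑ z ∈ Z, ((((Icc 1 N).filter (fun n => P n z)).card : ℕ) : ℝ) + V * (N : ℝ) ^ 2 + W * (8 * CR * (N : ℝ) ^ 2) := by
  classical
  rw [sq_card, sum_card]
  have hsplit : ∀ i ∈ Icc 1 N, ∑ j ∈ Icc 1 N, ((Z.filter (fun z => P i z ∧ P j z)).card : ℝ) ≤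
      ((Z.filter (fun z => P i z)).card : ℝ) +
      ∑ j ∈ (Icc 1 N).filter (fun j => j ≠ i), (V + W * (r (i + 1) + r (j + 1) + r ((i - j) + (j - i)))) := by
    intro i hi
    rw [← sum_filter_add_sum_filter_not (Icc 1 N) (fun j => j = i)]
    have e1 : (Icc 1 N).filter (fun j => j = i) = {i} := by
      ext j
      simp only [mem_filter, mem_singleton]
      constructor
      · rintro ⟨_, rfl⟩; rfl
      · rintro rfl; exact ⟨hi, rfl⟩
    rw [e1, sum_singleton]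
    have e2 : Z.filter (fun z => P i z ∧ P i z) = Z.filter (fun z => P i z) := by
      apply filter_congr
      intro z _
      exact and_self_iff
    rw [e2]
    have h2 := sum_le_sum (hoff i hi)
    linarith
  refine (sum_le_sum hsplit).trans ?_
  rw [sum_add_distrib]
  have h4 : ∑ i ∈ Icc 1 N, ∑ j ∈ (Icc 1 N).filter (fun j => j ≠ i), (V + W * (r (i + 1) + r (j + 1) + r ((i - j) + (j - i)))) =
      ∑ i ∈ Icc 1 N, ∑ j ∈ (Icc 1 N).filter (fun j => j ≠ i), V +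
      W * ∑ i ∈ Icc 1 N, ∑ j ∈ (Icc 1 N).filter (fun j => j ≠ i), (r (i + 1) + r (j + 1) + r ((i - j) + (j - i))) := by
    rw [mul_sum, ← sum_add_distrib]
    apply sum_congr rfl
    intro i _
    rw [mul_sum, ← sum_add_distrib]
  rw [h4]
  have h5 : ∑ i ∈ Icc 1 N, ∑ j ∈ (Icc 1 N).filter (fun j => j ≠ i), V ≤ V * (N : ℝ) ^ 2 := by
    have h6 : ∀ i ∈ Icc 1 N, ∑ j ∈ (Icc 1 N).filter (fun j => j ≠ i), V ≤ N * V := by
      intro i _
      rw [sum_const, nsmul_eq_mul]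
      apply mul_le_mul_of_nonneg_right _ hV
      have : ((Icc 1 N).filter (fun j => j ≠ i)).card ≤ N := by
        refine (card_filter_le _ _).trans ?_
        rw [Nat.card_Icc]; omega
      exact_mod_cast this
    refine (sum_le_sum h6).trans ?_
    rw [sum_const, Nat.card_Icc, nsmul_eq_mul]
    have e : ((N + 1 - 1 : ℕ) : ℝ) = N := by norm_num
    rw [e]
    apply le_of_eq; ring
  have h7 := sum_R r hr CR hCR N hN
  have h8 := mul_le_mul_of_nonneg_left h7 hW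
  linarith

/-- the arithmetic of the conclusion -/
lemma concl (c₀ ρM E k y S1 S2 G : ℝ) (hc₀ : 0 < c₀) (hρ : 1 ≤ ρM) (hE : 1 ≤ E) (hk : 0 ≤ k) (hy : 0 < y)
    (h1 : c₀ * ρM * y ≤ S1) (h2 : 2 * k * y ≤ S1) (h3 : (S1 - k * y) ^ 2 ≤ G * S2) (hG : 0 ≤ G)
    (h4 : S2 ≤ S1 + E * ρM ^ 2 * y) : 1 / (4 * (1 / c₀ + E / c₀ ^ 2)) * y ≤ G := by
  have hS1 : 0 < S1 := lt_of_lt_of_le (by positivity) h1
  obtain ⟨D, hD⟩ : ∃ D, D = 1 / c₀ + E / c₀ ^ 2 := ⟨_, rfl⟩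
  have hD0 : 0 < D := by rw [hD]; positivity
  rw [← hD]
  have g1 : S1 ^ 2 / 4 ≤ G * S2 := by
    refine le_trans ?_ h3
    have g2 : S1 / 2 ≤ S1 - k * y := by linarith
    have g3 := pow_le_pow_left₀ (by positivity) g2 2
    calc S1 ^ 2 / 4 = (S1 / 2) ^ 2 := by ring
      _ ≤ _ := g3
  have g2 : S2 ≤ D * (S1 ^ 2 / y) := by
    have g3 : c₀ * y ≤ S1 := by
      have : c₀ * 1 ≤ c₀ * ρM := mul_le_mul_of_nonneg_left hρ hc₀.le
      have : c₀ * y ≤ c₀ * ρM * y := mul_le_mul_of_nonneg_right (by linarith) hy.le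
      linarith
    have g4 : S1 ≤ 1 / c₀ * (S1 ^ 2 / y) := by
      have e : 1 / c₀ * (S1 ^ 2 / y) = S1 ^ 2 / (c₀ * y) := by field_simp
      rw [e, le_div_iff₀ (by positivity)]
      calc S1 * (c₀ * y) ≤ S1 * S1 := mul_le_mul_of_nonneg_left g3 hS1.le
        _ = S1 ^ 2 := by ring
    have g5 : E * ρM ^ 2 * y ≤ E / c₀ ^ 2 * (S1 ^ 2 / y) := by
      have e : E / c₀ ^ 2 * (S1 ^ 2 / y) = E * (S1 ^ 2 / (c₀ ^ 2 * y)) := by field_simp
      rw [e, mul_assoc]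
      apply mul_le_mul_of_nonneg_left _ (by linarith)
      rw [le_div_iff₀ (by positivity)]
      have g6 := pow_le_pow_left₀ (by positivity) h1 2
      calc ρM ^ 2 * y * (c₀ ^ 2 * y) = (c₀ * ρM * y) ^ 2 := by ring
        _ ≤ _ := g6
    rw [hD, add_mul]
    linarith
  have g4 : S1 ^ 2 / 4 ≤ G * (D * (S1 ^ 2 / y)) := g1.trans (mul_le_mul_of_nonneg_left g2 hG)
  have g5 : 0 < S1 ^ 2 := by positivity
  have g6 : G * (D * (S1 ^ 2 / y)) = (G * D / y) * S1 ^ 2 := by ring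
  rw [g6] at g4
  have g7 : 1 / 4 ≤ G * D / y := by
    by_contra hcon
    push Not at hcon
    have := mul_lt_mul_of_pos_right hcon g5
    linarith
  rw [le_div_iff₀ hy] at g7
  rw [div_mul_eq_mul_div, div_le_iff₀ (by positivity)]
  linarith

/-- large `Y` -/
lemma large (lam κ : ℝ) : ∀ᶠ Y : ℕ in atTop,
    2 * lam + 2 ≤ 1 / 2 * Real.log Y ∧ 4 / κ ≤ Real.log Y ∧ 8 * (Real.log Y) ^ 2 ≤ Y := by
  have tl : Tendsto (fun Y : ℕ => Real.log (Y : ℝ)) atTop atTop := Real.tendsto_log_atTop.comp tendsto_natCast_atTop_atTop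
  have h1 := tl.eventually_ge_atTop (2 * (2 * lam + 2))
  have h2 := tl.eventually_ge_atTop (4 / κ)
  have h3 : ∀ᶠ Y : ℕ in atTop, 8 * (Real.log Y) ^ 2 ≤ Y := by
    have h4 := (isLittleO_log_rpow_atTop (show (0 : ℝ) < 1 / 2 by norm_num)).def (show (0 : ℝ) < 1 / 4 by norm_num)
    have h5 := tendsto_natCast_atTop_atTop (R := ℝ) |>.eventually h4
    filter_upwards [h5, eventually_ge_atTop 1] with Y hY hY1
    have hY1r : (1 : ℝ) ≤ Y := by exact_mod_cast hY1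
    have hl : 0 ≤ Real.log (Y : ℝ) := Real.log_nonneg hY1r
    rw [Real.norm_of_nonneg hl, Real.norm_of_nonneg (by positivity), ← Real.sqrt_eq_rpow] at hY
    have h6 := pow_le_pow_left₀ hl hY 2
    rw [mul_pow, Real.sq_sqrt (by positivity)] at h6
    linarith
  filter_upwards [h1, h2, h3] with Y a b c
  exact ⟨by linarith, b, c⟩

/-- the class version -/
theorem inClass (hA : 1 ≤ A) (hB : 1 ≤ B) (hAB : A.Coprime B) (k : ℕ) :
    ∃ (M b₀ : ℕ) (c : ℝ) (Y₀ : ℕ), 1 ≤ M ∧ 1 ≤ b₀ ∧ b₀ ≤ M ∧ 0 < c ∧ ∀ Y : ℕ, Y₀ ≤ Y →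
      c * (Y : ℝ) ^ 2 ≤ (((range Y ×ˢ range Y).filter (fun z => k ≤ ((Icc 1 (⌊Real.log Y⌋₊ - 1)).filter
        (fun n => (sq A B (1 + M * z.1) (b₀ + M * z.2) (n + 1)).Prime)).card)).card : ℝ) := by
  classical
  -- Romanoff's constant
  obtain ⟨CR, hCR0, hCR'⟩ := romanoffK (U A B) (A + B) 728 (fun s hs => U_pos' hA hs)
    (fun s _ => by
      calc U A B s ≤ (A + B) ^ s := U_le_pow hA s
        _ ≤ (2 ^ (A + B)) ^ s := Nat.pow_le_pow_left (Nat.lt_two_pow_self).le s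
        _ = 2 ^ ((A + B) * s) := by rw [← pow_mul])
    (fun p s t _ _ _ h1 h2 => by rw [← U_gcd hAB]; exact Nat.dvd_gcd h1 h2)
  set r : ℕ → ℝ := fun l => ρ (U A B l) ^ 6 with hr
  have hr0 : ∀ l, 0 ≤ r l := fun l => by
    have := rho_one_le (U A B l)
    rw [hr]; positivity
  have hCR : ∀ n : ℕ, ∑ s ∈ Icc 1 n, r s ≤ CR * n := fun n =>
    (sum_le_sum fun s _ => rho6 (U A B s)).trans (hCR' n)
  obtain ⟨C, hC, hsec⟩ := second (A := A) (B := B) hA hB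
  -- constants
  have hAB2 : (2 : ℝ) ≤ ((A + B : ℕ) : ℝ) := by exact_mod_cast (by omega : 2 ≤ A + B)
  have hBr : (1 : ℝ) ≤ B := by exact_mod_cast hB
  set lam : ℝ := Real.log ((A + B : ℕ) : ℝ) with hlam
  have hlam2 : Real.log 2 ≤ lam := Real.log_le_log (by norm_num) hAB2
  have hl2 := Real.log_two_gt_d9
  have hlam0 : 0 < lam := by linarith
  set κ : ℝ := 1 / (4 * lam) with hκ
  have hκ0 : 0 < κ := by positivity
  have hκ1 : κ ≤ 1 / 2 := by
    rw [hκ]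
    apply one_div_le_one_div_of_le (by norm_num)
    linarith
  set c₀ : ℝ := κ / (512 * B) with hc₀
  have hc₀0 : 0 < c₀ := by positivity
  obtain ⟨M, b₀, hM, hb1, hbM, hT, hcop⟩ := exists_class (A := A) (B := B) hA hB (2 * k / c₀)
  obtain ⟨Y₁, hY₁2, hfirst⟩ := first hA hB hAB M b₀ hM hbM hcop
  obtain ⟨Y₂, hY₂2, hsec⟩ := hsec M b₀ hM
  set E : ℝ := 1 + 16 * C * CR with hE
  have hE1 : 1 ≤ E := by rw [hE]; have : 0 ≤ 16 * C * CR := by positivity
                         linarith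
  have hρ1 := rho_one_le M
  have hkρ : 2 * (k : ℝ) ≤ c₀ * ρ M := by
    rw [div_le_iff₀ hc₀0] at hT
    linarith
  have hev := large lam κ
  obtain ⟨Y₃, hY₃⟩ := eventually_atTop.1 hev
  set D : ℝ := 1 / c₀ + E / c₀ ^ 2 with hD
  have hD0 : 0 < D := by positivity
  refine ⟨M, b₀, 1 / (4 * D), Y₁ + Y₂ + Y₃, hM, hb1, hbM, by positivity, fun Y hY => ?_⟩
  obtain ⟨hy1, hy2, hy3⟩ := hY₃ Y (by omega)
  have hY2 : 2 ≤ Y := by omega
  have hYr : (2 : ℝ) ≤ Y := by exact_mod_cast hY2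
  have hlogY : 0 < Real.log Y := Real.log_pos (by linarith)
  set N : ℕ := ⌊κ * Real.log Y⌋₊ with hN
  have hNle : (N : ℝ) ≤ κ * Real.log Y := Nat.floor_le (by positivity)
  have hNge : κ / 2 * Real.log Y ≤ N := by
    have h1 := Nat.lt_floor_add_one (κ * Real.log Y)
    have h2 : 4 ≤ κ * Real.log Y := by
      rw [div_le_iff₀ hκ0] at hy2
      linarith
    rw [← hN] at h1
    linarith
  have hN1 : 1 ≤ N := by
    have h2 : 4 ≤ κ * Real.log Y := by
      rw [div_le_iff₀ hκ0] at hy2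
      linarith
    have h3 : (2 : ℝ) ≤ N := by linarith
    have : 2 ≤ N := by exact_mod_cast h3
    omega
  have hNL : N ≤ ⌊Real.log Y⌋₊ - 1 := by
    have h1 : (N : ℝ) + 1 ≤ Real.log Y := by nlinarith
    have h2 : N + 1 ≤ ⌊Real.log Y⌋₊ := by
      apply Nat.le_floor
      push_cast
      exact h1
    omega
  -- the terms are small
  have hsmall : ∀ n ∈ Icc 1 N, U A B (n + 1) ^ 2 ≤ Y := by
    intro n hn
    rw [mem_Icc] at hn
    have h1 : ((U A B (n + 1) ^ 2 : ℕ) : ℝ) ≤ ((A + B : ℕ) : ℝ) ^ (2 * (N + 1)) := by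
      have h2 : U A B (n + 1) ^ 2 ≤ (A + B) ^ (2 * (N + 1)) := by
        calc U A B (n + 1) ^ 2 ≤ ((A + B) ^ (n + 1)) ^ 2 := Nat.pow_le_pow_left (U_le_pow hA _) 2
          _ = (A + B) ^ (2 * (n + 1)) := by rw [← pow_mul]; ring_nf
          _ ≤ _ := Nat.pow_le_pow_right (by omega) (by omega)
      exact_mod_cast h2
    have h3 : ((A + B : ℕ) : ℝ) ^ (2 * (N + 1)) ≤ Y := by
      rw [← Real.log_le_log_iff (by positivity) (by linarith), Real.log_pow]
      push_cast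
      have h4 : (N : ℝ) * lam ≤ 1 / 4 * Real.log Y := by
        calc (N : ℝ) * lam ≤ κ * Real.log Y * lam := mul_le_mul_of_nonneg_right hNle hlam0.le
          _ = 1 / 4 * Real.log Y := by rw [hκ]; field_simp
      have h5 : Real.log ((A : ℝ) + B) = lam := by rw [hlam]; push_cast; rfl
      rw [h5]
      nlinarith
    have h6 : ((U A B (n + 1) ^ 2 : ℕ) : ℝ) ≤ (Y : ℝ) := h1.trans h3
    exact_mod_cast h6
  set Z : Finset (ℕ × ℕ) := range Y ×ˢ range Y with hZ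
  have hZc : (Z.card : ℝ) = (Y : ℝ) ^ 2 := by
    rw [hZ, card_product, card_range]; push_cast; ring
  set P : ℕ → ℕ × ℕ → Prop := fun n z => (sq A B (1 + M * z.1) (b₀ + M * z.2) (n + 1)).Prime with hP
  set c : ℕ × ℕ → ℕ := fun z => ((Icc 1 N).filter (fun n => P n z)).card with hc
  set S1 : ℝ := ∑ z ∈ Z, (c z : ℝ) with hS1
  set S2 : ℝ := ∑ z ∈ Z, (c z : ℝ) ^ 2 with hS2
  have hS1e : S1 = ∑ i ∈ Icc 1 N, ((Z.filter (fun z => P i z)).card : ℝ) := sum_card Z N P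
  -- first moment
  have hS1ge : c₀ * ρ M * (Y : ℝ) ^ 2 ≤ S1 := by
    rw [hS1e]
    have h1 : ∀ i ∈ Icc 1 N, ρ M * (Y : ℝ) ^ 2 / (256 * B * Real.log Y) ≤ ((Z.filter (fun z => P i z)).card : ℝ) := by
      intro i hi
      exact hfirst Y (by omega) i (mem_Icc.1 hi).1 (hsmall i hi)
    have h2 := sum_le_sum h1
    rw [sum_const, Nat.card_Icc, nsmul_eq_mul] at h2
    refine le_trans ?_ h2
    have e : ((N + 1 - 1 : ℕ) : ℝ) = N := by norm_num
    rw [e]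
    calc c₀ * ρ M * (Y : ℝ) ^ 2 = (κ / 2 * Real.log Y) * (ρ M * (Y : ℝ) ^ 2 / (256 * B * Real.log Y)) := by
          rw [hc₀]; field_simp; ring
      _ ≤ _ := mul_le_mul_of_nonneg_right hNge (by positivity)
  -- second moment
  have hoff : ∀ i ∈ Icc 1 N, ∀ j ∈ (Icc 1 N).filter (fun j => j ≠ i), ((Z.filter (fun z => P i z ∧ P j z)).card : ℝ) ≤
      2 * Y + C * ρ M ^ 2 * ((Y : ℝ) ^ 2 / (Real.log Y) ^ 2) * (r (i + 1) + r (j + 1) + r ((i - j) + (j - i))) := by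
    intro i hi j hj
    rw [mem_filter, mem_Icc] at hj
    rw [mem_Icc] at hi
    have gen : ∀ a b : ℕ, 1 ≤ a → a < b → ((Z.filter (fun z => P a z ∧ P b z)).card : ℝ) ≤
        2 * Y + C * ρ M ^ 2 * ((Y : ℝ) ^ 2 / (Real.log Y) ^ 2) * (r (a + 1) + r (b + 1) + r (b - a)) := by
      intro a b ha hab
      obtain ⟨l, rfl⟩ : ∃ l, b = a + l := ⟨b - a, by omega⟩
      have h1 := hsec Y (by omega) a l ha (by omega)
      have h2 := three_le (ρ (U A B (a + 1))) (ρ (U A B (a + l + 1))) (ρ (U A B l))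
        (by have := rho_one_le (U A B (a + 1)); linarith) (by have := rho_one_le (U A B (a + l + 1)); linarith)
        (by have := rho_one_le (U A B l); linarith)
      have e : a + l - a = l := by omega
      rw [e]
      calc ((Z.filter (fun z => P a z ∧ P (a + l) z)).card : ℝ) ≤ _ := h1
        _ = 2 * Y + C * ρ M ^ 2 * ((Y : ℝ) ^ 2 / (Real.log Y) ^ 2) * (ρ (U A B (a + 1)) * ρ (U A B (a + l + 1)) * ρ (U A B l)) ^ 2 := by ring
        _ ≤ _ := by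
          have h3 : 0 ≤ C * ρ M ^ 2 * ((Y : ℝ) ^ 2 / (Real.log Y) ^ 2) := by positivity
          have h4 := mul_le_mul_of_nonneg_left h2 h3
          linarith
    rcases lt_or_gt_of_ne hj.2 with h | h
    · have h1 := gen j i hj.1.1 h
      have e1 : (i - j) + (j - i) = i - j := by omega
      rw [e1]
      have e2 : Z.filter (fun z => P i z ∧ P j z) = Z.filter (fun z => P j z ∧ P i z) := by
        apply filter_congr
        intro z _
        exact and_comm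
      rw [e2]
      linarith
    · have h1 := gen i j hi.1 h
      have e1 : (i - j) + (j - i) = j - i := by omega
      rw [e1]
      exact h1
  have hS2le : S2 ≤ S1 + E * ρ M ^ 2 * (Y : ℝ) ^ 2 := by
    have h0 := sec_sum Z N hN1 P r hr0 CR hCR (2 * Y) (C * ρ M ^ 2 * ((Y : ℝ) ^ 2 / (Real.log Y) ^ 2)) (by positivity)
      (by positivity) hoff
    have hNlog : (N : ℝ) ≤ Real.log Y := by
      have := mul_le_mul_of_nonneg_right hκ1 hlogY.le
      linarith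
    have hN2 : (N : ℝ) ^ 2 ≤ (Real.log Y) ^ 2 := pow_le_pow_left₀ (by positivity) hNlog 2
    have h9 : 2 * (Y : ℝ) * (N : ℝ) ^ 2 ≤ (Y : ℝ) ^ 2 := by
      calc 2 * (Y : ℝ) * (N : ℝ) ^ 2 ≤ 2 * (Y : ℝ) * (Real.log Y) ^ 2 := mul_le_mul_of_nonneg_left hN2 (by positivity)
        _ ≤ (Y : ℝ) * (8 * (Real.log Y) ^ 2) := by
            have : 0 ≤ (Y : ℝ) * (Real.log Y) ^ 2 := by positivity
            linarith
        _ ≤ (Y : ℝ) * Y := mul_le_mul_of_nonneg_left hy3 (by positivity)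
        _ = _ := by ring
    have h10 : C * ρ M ^ 2 * ((Y : ℝ) ^ 2 / (Real.log Y) ^ 2) * (8 * CR * (N : ℝ) ^ 2) ≤ 8 * C * CR * ρ M ^ 2 * (Y : ℝ) ^ 2 := by
      calc C * ρ M ^ 2 * ((Y : ℝ) ^ 2 / (Real.log Y) ^ 2) * (8 * CR * (N : ℝ) ^ 2) ≤
            C * ρ M ^ 2 * ((Y : ℝ) ^ 2 / (Real.log Y) ^ 2) * (8 * CR * (Real.log Y) ^ 2) :=
            mul_le_mul_of_nonneg_left (mul_le_mul_of_nonneg_left hN2 (by positivity)) (by positivity)
        _ = _ := by field_simp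
    have h11 : (Y : ℝ) ^ 2 ≤ ρ M ^ 2 * (Y : ℝ) ^ 2 :=
      le_mul_of_one_le_left (by positivity) (one_le_pow₀ hρ1)
    have h12 : 8 * C * CR * ρ M ^ 2 * (Y : ℝ) ^ 2 ≤ 16 * C * CR * ρ M ^ 2 * (Y : ℝ) ^ 2 := by
      have : 0 ≤ C * CR * ρ M ^ 2 * (Y : ℝ) ^ 2 := by positivity
      linarith
    have h13 : E * ρ M ^ 2 * (Y : ℝ) ^ 2 = ρ M ^ 2 * (Y : ℝ) ^ 2 + 16 * C * CR * ρ M ^ 2 * (Y : ℝ) ^ 2 := by
      rw [hE]; ring
    rw [h13]
    linarith
  -- conclusion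
  set G := Z.filter (fun z => k ≤ c z) with hG
  have hY20 : 0 < (Y : ℝ) ^ 2 := by positivity
  have hS1k : 2 * (k : ℝ) * (Y : ℝ) ^ 2 ≤ S1 := by
    have := mul_le_mul_of_nonneg_right hkρ hY20.le
    linarith
  have hS10 : 0 < S1 := by
    have : 0 < c₀ * ρ M * (Y : ℝ) ^ 2 := by positivity
    linarith
  have hpz := pz Z c k (by rw [hZc, ← hS1]; nlinarith [show (0 : ℝ) ≤ k * (Y : ℝ) ^ 2 by positivity])
  rw [← hS1, ← hS2, hZc] at hpz
  have h3 : 1 / (4 * D) * (Y : ℝ) ^ 2 ≤ (G.card : ℝ) :=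
    concl c₀ (ρ M) E k ((Y : ℝ) ^ 2) S1 S2 G.card hc₀0 hρ1 hE1 (Nat.cast_nonneg k) hY20 hS1ge hS1k hpz
      (Nat.cast_nonneg _) hS2le
  refine h3.trans ?_
  have h8 : G.card ≤ (Z.filter (fun z => k ≤ ((Icc 1 (⌊Real.log Y⌋₊ - 1)).filter (fun n => P n z)).card)).card := by
    apply card_le_card
    intro z hz
    rw [hG, mem_filter] at hz
    rw [mem_filter]
    refine ⟨hz.1, hz.2.trans ?_⟩
    apply card_le_card
    apply filter_subset_filter
    exact Icc_subset_Icc le_rfl hNL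
  exact_mod_cast h8

/-- **Positive proportion of the starting pairs.** -/
theorem main (hA : 1 ≤ A) (hB : 1 ≤ B) (hAB : A.Coprime B) (k : ℕ) :
    ∃ (δ : ℝ) (X₀ : ℕ), 0 < δ ∧ ∀ X : ℕ, X₀ ≤ X →
      δ * (X : ℝ) ^ 2 ≤ (((Icc 1 X ×ˢ Icc 1 X).filter (fun z => k ≤ ((Icc 2 ⌊Real.log X⌋₊).filter
        (fun n => (sq A B z.1 z.2 n).Prime)).card)).card : ℝ) := by
  classical
  obtain ⟨M, b₀, c, Y₀, hM, hb1, hbM, hc, h⟩ := inClass hA hB hAB k
  refine ⟨c / (4 * M ^ 2), M * (Y₀ + 2), by positivity, fun X hX => ?_⟩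
  set Y := X / M with hY
  have hY2 : Y₀ + 2 ≤ Y := by
    rw [hY, Nat.le_div_iff_mul_le hM]
    linarith [mul_comm M (Y₀ + 2)]
  have hYM : Y * M ≤ X := Nat.div_mul_le_self _ _
  have hYX : Y ≤ X := (Nat.le_mul_of_pos_right Y hM).trans hYM
  have h1 := h Y (by omega)
  have hXY : (X : ℝ) ≤ 2 * M * Y := by
    have h2 : X < (Y + 1) * M := by
      have := Nat.lt_div_mul_add (a := X) (b := M) hM
      calc X < X / M * M + M := this
        _ = _ := by rw [← hY]; ring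
    have h3 : (X : ℝ) ≤ (Y + 1) * M := by exact_mod_cast h2.le
    have h4 : (1 : ℝ) ≤ Y := by exact_mod_cast (by omega : 1 ≤ Y)
    have h5 : (0 : ℝ) ≤ M := Nat.cast_nonneg _
    nlinarith
  have hMr : (0 : ℝ) < M := by exact_mod_cast hM
  have h2 : c / (4 * M ^ 2) * (X : ℝ) ^ 2 ≤ c * (Y : ℝ) ^ 2 := by
    have h3 := pow_le_pow_left₀ (Nat.cast_nonneg X) hXY 2
    calc c / (4 * M ^ 2) * (X : ℝ) ^ 2 ≤ c / (4 * M ^ 2) * (2 * M * Y) ^ 2 := by gcongr
      _ = _ := by field_simp; ring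
  refine h2.trans (h1.trans ?_)
  norm_cast
  apply card_le_card_of_injOn (fun z => (1 + M * z.1, b₀ + M * z.2))
  · intro z hz
    simp only [coe_filter, mem_product, mem_range, Set.mem_setOf_eq, mem_Icc] at hz ⊢
    obtain ⟨⟨hz1, hz2⟩, hz3⟩ := hz
    have e1 : M * z.1 + M ≤ X := by
      calc M * z.1 + M = (z.1 + 1) * M := by ring
        _ ≤ Y * M := Nat.mul_le_mul_right _ hz1
        _ ≤ X := hYM
    have e2 : M * z.2 + M ≤ X := by
      calc M * z.2 + M = (z.2 + 1) * M := by ring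
        _ ≤ Y * M := Nat.mul_le_mul_right _ hz2
        _ ≤ X := hYM
    refine ⟨⟨⟨by omega, by omega⟩, ⟨by omega, by omega⟩⟩, hz3.trans ?_⟩
    apply card_le_card_of_injOn (fun n => n + 1)
    · intro n hn
      simp only [coe_filter, mem_Icc, Set.mem_setOf_eq] at hn ⊢
      refine ⟨⟨by omega, ?_⟩, hn.2⟩
      have hlog : ⌊Real.log Y⌋₊ ≤ ⌊Real.log X⌋₊ := by
        apply Nat.floor_le_floor
        apply Real.log_le_log
        · exact_mod_cast (by omega : 0 < Y)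
        · exact_mod_cast hYX
      omega
    · intro a _ b _ hab
      simp only at hab
      omega
  · intro z _ z' _ hzz
    simp only [Prod.mk.injEq] at hzz
    obtain ⟨g1, g2⟩ := hzz
    have k1 : M * z.1 = M * z'.1 := by omega
    have k2 : M * z.2 = M * z'.2 := by omega
    exact Prod.ext (Nat.eq_of_mul_eq_mul_left hM k1) (Nat.eq_of_mul_eq_mul_left hM k2)

end Pool.Agent.K4H3.FB
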