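import Pool.Agent.K4H3.FB.B7

/-! The proportion of the starting pairs with at least `k` primes is at most `C / k ^ 2`. -/

set_option autoImplicit false

namespace Pool.Agent.K4H3.FB
open Finset Filter

variable {A B : ℕ}

theorem upper (hA : 1 ≤ A) (hB : 1 ≤ B) (hAB : A.Coprime B) :
    ∃ (C : ℝ) (X₀ : ℕ), 0 < C ∧ ∀ X : ℕ, X₀ ≤ X → ∀ k : ℕ, 1 ≤ k →
      (((Icc 1 X ×ˢ Icc 1 X).filter (fun z => k ≤ ((Icc 2 ⌊Real.log X⌋₊).filter
        (fun n => (sq A B z.1 z.2 n).Prime)).card)).card : ℝ) ≤ C * (X : ℝ) ^ 2 / (k : ℝ) ^ 2 := by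
  classical
  obtain ⟨CR, hCR0, hCR'⟩ := romanoffK (U A B) (A + B) 728 (fun s hs => U_pos' hA hs)
    (fun s _ => by
      calc U A B s ≤ (A + B) ^ s := U_le_pow hA s
        _ ≤ (2 ^ (A + B)) ^ s := Nat.pow_le_pow_left (Nat.lt_two_pow_self).le s
        _ = 2 ^ ((A + B) * s) := by rw [← pow_mul])
    (fun p s t _ _ _ h1 h2 => by rw [← U_gcd hAB]; exact Nat.dvd_gcd h1 h2)
  set r : ℕ → ℝ := fun l => ρ (U A B l) ^ 6 with hr
  have hr0 : ∀ l, 0 ≤ r l := fun l => by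
    have := rho_one_le (U A B l)
    rw [hr]; positivity
  have hCR : ∀ n : ℕ, ∑ s ∈ Icc 1 n, r s ≤ CR * n := fun n =>
    (sum_le_sum fun s _ => rho6 (U A B s)).trans (hCR' n)
  obtain ⟨C, hC, hsec⟩ := second (A := A) (B := B) hA hB
  obtain ⟨Y₂, hY₂2, hsec⟩ := hsec 1 1 le_rfl
  obtain ⟨Y₃, hY₃⟩ := eventually_atTop.1 (large 1 1)
  have hρ1 : ρ 1 = 1 := rho_one
  set E : ℝ := 1 + 8 * C * CR with hE
  have hE1 : 1 ≤ E := by rw [hE]; have : 0 ≤ 8 * C * CR := by positivity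
                         linarith
  refine ⟨1 + 2 * E, Y₂ + Y₃, by linarith, fun Y hY k hk => ?_⟩
  obtain ⟨hy1, hy2, hy3⟩ := hY₃ Y (by omega)
  have hY2 : 2 ≤ Y := by omega
  have hYr : (2 : ℝ) ≤ Y := by exact_mod_cast hY2
  have hlogY : 0 < Real.log Y := Real.log_pos (by linarith)
  set N : ℕ := ⌊Real.log Y⌋₊ - 1 with hN
  have h4 : (4 : ℝ) ≤ Real.log Y := by
    have := hy2
    rw [div_one] at this
    exact this
  have hfl : 4 ≤ ⌊Real.log Y⌋₊ := Nat.le_floor (by exact_mod_cast h4)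
  have hN1 : 1 ≤ N := by omega
  have hNlog : (N : ℝ) ≤ Real.log Y := by
    have h1 : (N : ℝ) ≤ (⌊Real.log Y⌋₊ : ℝ) := by exact_mod_cast (by omega : N ≤ ⌊Real.log Y⌋₊)
    exact h1.trans (Nat.floor_le hlogY.le)
  set Z : Finset (ℕ × ℕ) := range Y ×ˢ range Y with hZ
  have hZc : (Z.card : ℝ) = (Y : ℝ) ^ 2 := by
    rw [hZ, card_product, card_range]; push_cast; ring
  set P : ℕ → ℕ × ℕ → Prop := fun n z => (sq A B (1 + 1 * z.1) (1 + 1 * z.2) (n + 1)).Prime with hP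
  set c : ℕ × ℕ → ℕ := fun z => ((Icc 1 N).filter (fun n => P n z)).card with hc
  have hoff : ∀ i ∈ Icc 1 N, ∀ j ∈ (Icc 1 N).filter (fun j => j ≠ i), ((Z.filter (fun z => P i z ∧ P j z)).card : ℝ) ≤
      2 * Y + C * ((Y : ℝ) ^ 2 / (Real.log Y) ^ 2) * (r (i + 1) + r (j + 1) + r ((i - j) + (j - i))) := by
    intro i hi j hj
    rw [mem_filter, mem_Icc] at hj
    rw [mem_Icc] at hi
    have gen : ∀ a b : ℕ, 1 ≤ a → a < b → ((Z.filter (fun z => P a z ∧ P b z)).card : ℝ) ≤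
        2 * Y + C * ((Y : ℝ) ^ 2 / (Real.log Y) ^ 2) * (r (a + 1) + r (b + 1) + r (b - a)) := by
      intro a b ha hab
      obtain ⟨l, rfl⟩ : ∃ l, b = a + l := ⟨b - a, by omega⟩
      have h1 := hsec Y (by omega) a l ha (by omega)
      rw [hρ1] at h1
      have h2 := three_le (ρ (U A B (a + 1))) (ρ (U A B (a + l + 1))) (ρ (U A B l))
        (by have := rho_one_le (U A B (a + 1)); linarith) (by have := rho_one_le (U A B (a + l + 1)); linarith)
        (by have := rho_one_le (U A B l); linarith)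
      have e : a + l - a = l := by omega
      rw [e]
      calc ((Z.filter (fun z => P a z ∧ P (a + l) z)).card : ℝ) ≤ _ := h1
        _ = 2 * Y + C * ((Y : ℝ) ^ 2 / (Real.log Y) ^ 2) * (ρ (U A B (a + 1)) * ρ (U A B (a + l + 1)) * ρ (U A B l)) ^ 2 := by ring
        _ ≤ _ := by
          have h3 : 0 ≤ C * ((Y : ℝ) ^ 2 / (Real.log Y) ^ 2) := by positivity
          have h4 := mul_le_mul_of_nonneg_left h2 h3
          linarith
    rcases lt_or_gt_of_ne hj.2 with h | h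
    · have h1 := gen j i hj.1.1 h
      have e1 : (i - j) + (j - i) = i - j := by omega
      rw [e1]
      have e2 : Z.filter (fun z => P i z ∧ P j z) = Z.filter (fun z => P j z ∧ P i z) := by
        apply filter_congr
        intro z _
        exact and_comm
      rw [e2]
      linarith
    · have h1 := gen i j hi.1 h
      have e1 : (i - j) + (j - i) = j - i := by omega
      rw [e1]
      exact h1
  have h0 := sec_sum Z N hN1 P r hr0 CR hCR (2 * Y) (C * ((Y : ℝ) ^ 2 / (Real.log Y) ^ 2)) (by positivity)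
    (by positivity) hoff
  set S1 : ℝ := ∑ z ∈ Z, (c z : ℝ) with hS1
  set S2 : ℝ := ∑ z ∈ Z, (c z : ℝ) ^ 2 with hS2
  have hN2 : (N : ℝ) ^ 2 ≤ (Real.log Y) ^ 2 := pow_le_pow_left₀ (by positivity) hNlog 2
  have h9 : 2 * (Y : ℝ) * (N : ℝ) ^ 2 ≤ (Y : ℝ) ^ 2 := by
    calc 2 * (Y : ℝ) * (N : ℝ) ^ 2 ≤ 2 * (Y : ℝ) * (Real.log Y) ^ 2 := mul_le_mul_of_nonneg_left hN2 (by positivity)
      _ ≤ (Y : ℝ) * (8 * (Real.log Y) ^ 2) := by
          have : 0 ≤ (Y : ℝ) * (Real.log Y) ^ 2 := by positivity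
          linarith
      _ ≤ (Y : ℝ) * Y := mul_le_mul_of_nonneg_left hy3 (by positivity)
      _ = _ := by ring
  have h10 : C * ((Y : ℝ) ^ 2 / (Real.log Y) ^ 2) * (8 * CR * (N : ℝ) ^ 2) ≤ 8 * C * CR * (Y : ℝ) ^ 2 := by
    calc C * ((Y : ℝ) ^ 2 / (Real.log Y) ^ 2) * (8 * CR * (N : ℝ) ^ 2) ≤
          C * ((Y : ℝ) ^ 2 / (Real.log Y) ^ 2) * (8 * CR * (Real.log Y) ^ 2) :=
          mul_le_mul_of_nonneg_left (mul_le_mul_of_nonneg_left hN2 (by positivity)) (by positivity)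
      _ = _ := by field_simp
  have h11 : S2 ≤ S1 + E * (Y : ℝ) ^ 2 := by
    have e : E * (Y : ℝ) ^ 2 = (Y : ℝ) ^ 2 + 8 * C * CR * (Y : ℝ) ^ 2 := by rw [hE]; ring
    rw [e]
    linarith
  have h12 : S1 ≤ (S2 + (Y : ℝ) ^ 2) / 2 := by
    rw [hS1, hS2, ← hZc]
    have : (Z.card : ℝ) = ∑ _z ∈ Z, (1 : ℝ) := by simp
    rw [this, ← sum_add_distrib, sum_div]
    apply sum_le_sum
    intro z _
    nlinarith [sq_nonneg ((c z : ℝ) - 1)]
  have h13 : S2 ≤ (1 + 2 * E) * (Y : ℝ) ^ 2 := by linarith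
  -- Chebyshev
  have hkr : (1 : ℝ) ≤ k := by exact_mod_cast hk
  have h14 : ((Z.filter (fun z => k ≤ c z)).card : ℝ) * (k : ℝ) ^ 2 ≤ S2 := by
    calc ((Z.filter (fun z => k ≤ c z)).card : ℝ) * (k : ℝ) ^ 2 = ∑ _z ∈ Z.filter (fun z => k ≤ c z), (k : ℝ) ^ 2 := by
          rw [sum_const, nsmul_eq_mul]
      _ ≤ ∑ z ∈ Z.filter (fun z => k ≤ c z), (c z : ℝ) ^ 2 := by
          apply sum_le_sum
          intro z hz
          rw [mem_filter] at hz
          exact pow_le_pow_left₀ (by positivity) (by exact_mod_cast hz.2) 2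
      _ ≤ S2 := sum_le_sum_of_subset_of_nonneg (filter_subset _ _) fun _ _ _ => by positivity
  have h15 : ((Icc 1 Y ×ˢ Icc 1 Y).filter (fun z => k ≤ ((Icc 2 ⌊Real.log Y⌋₊).filter
        (fun n => (sq A B z.1 z.2 n).Prime)).card)).card ≤ (Z.filter (fun z => k ≤ c z)).card := by
    apply card_le_card_of_injOn (fun z => (z.1 - 1, z.2 - 1))
    · rintro ⟨a, b⟩ hz
      simp only [coe_filter, mem_product, mem_Icc, Set.mem_setOf_eq] at hz
      obtain ⟨⟨⟨ha1, ha2⟩, hb1, hb2⟩, hz3⟩ := hz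
      simp only [coe_filter, Set.mem_setOf_eq, hZ, mem_product, mem_range]
      refine ⟨⟨by omega, by omega⟩, hz3.trans ?_⟩
      rw [hc]
      apply card_le_card_of_injOn (fun n => n - 1)
      · intro n hn
        simp only [coe_filter, mem_Icc, Set.mem_setOf_eq] at hn
        simp only [coe_filter, mem_Icc, Set.mem_setOf_eq, hP]
        have e1 : 1 + 1 * (a - 1) = a := by omega
        have e2 : 1 + 1 * (b - 1) = b := by omega
        have e3 : n - 1 + 1 = n := by omega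
        rw [e1, e2, e3]
        exact ⟨⟨by omega, by omega⟩, hn.2⟩
      · intro n hn n' hn' h
        simp only [coe_filter, mem_Icc, Set.mem_setOf_eq] at hn hn' h
        omega
    · rintro ⟨a, b⟩ hz ⟨a', b'⟩ hz' h
      simp only [coe_filter, mem_product, mem_Icc, Set.mem_setOf_eq, Prod.mk.injEq] at hz hz' h
      have : a = a' ∧ b = b' := by omega
      rw [this.1, this.2]
  rw [le_div_iff₀ (by positivity)]
  calc _ ≤ ((Z.filter (fun z => k ≤ c z)).card : ℝ) * (k : ℝ) ^ 2 := by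
        apply mul_le_mul_of_nonneg_right _ (by positivity)
        exact_mod_cast h15
    _ ≤ S2 := h14
    _ ≤ _ := h13

end Pool.Agent.K4H3.FB
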